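import Pool.Agent.V8H52.OS.Germ

/-!
# Scaled bumps with a prescribed derivative
-/

set_option autoImplicit false

open scoped Manifold ContDiff Topology
open Filter Set Metric

namespace Pool.Agent.V8H52.NH

open Pool.Agent.H718R2.G Pool.Agent.W564.SC

theorem bump1 (n k : ℕ) (hk : 1 ≤ k) : ∃ C : ℝ, 0 < C ∧ ∀ R : ℝ, 0 < R → R ≤ 1 → ∀ s : ℝ,
    ∃ u : V n → V n, ContDiff ℝ ∞ u ∧
      (∀ j ≤ k, ∀ x, ‖iteratedFDeriv ℝ j u x‖ ≤ C * (|s| / R ^ (k - 1))) ∧
      (∀ x, R ≤ ‖x‖ → u x = 0) ∧ u 0 = 0 ∧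
      HasFDerivAt u (s • ContinuousLinearMap.id ℝ (V n)) 0 := by
  let β : ContDiffBump (0 : V n) := ⟨1 / 2, 1, by norm_num, by norm_num⟩
  obtain ⟨W, hW⟩ : ∃ W : V n → V n, ∀ v, W v = β v • v := ⟨_, fun _ => rfl⟩
  have hWe : W = fun v => β v • v := funext hW
  have hWs : ContDiff ℝ ∞ W := by
    rw [hWe]
    exact β.contDiff.smul contDiff_id
  have hW0 : ∀ v, 1 ≤ ‖v‖ → W v = 0 := by
    intro v hv
    rw [hW, β.zero_of_le_dist (by rw [dist_zero_right]; exact hv), zero_smul]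
  have hWc : HasCompactSupport W := by
    refine HasCompactSupport.intro (isCompact_closedBall (0 : V n) 1) fun x hx => hW0 x ?_
    rw [mem_closedBall, dist_zero_right, not_le] at hx
    exact hx.le
  have hWd : HasFDerivAt W (ContinuousLinearMap.id ℝ (V n)) 0 := by
    refine (hasFDerivAt_id (𝕜 := ℝ) (0 : V n)).congr_of_eventuallyEq ?_
    filter_upwards [ball_mem_nhds (0 : V n) (show (0 : ℝ) < 1 / 2 by norm_num)] with v hv
    rw [hW, β.one_of_mem_closedBall (ball_subset_closedBall hv), one_smul]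
    rfl
  have hbd : ∀ j : ℕ, ∃ C : ℝ, ∀ x : V n, ‖iteratedFDeriv ℝ j W x‖ ≤ C := by
    intro j
    have hc : Continuous (iteratedFDeriv ℝ j W) :=
      hWs.continuous_iteratedFDeriv (by exact_mod_cast le_top)
    exact hc.bounded_above_of_compact_support (hWc.iteratedFDeriv j)
  choose C hC using hbd
  have hC0 : ∀ j, 0 ≤ C j := fun j => (norm_nonneg _).trans (hC j 0)
  refine ⟨1 + ∑ j ∈ Finset.range (k + 1), C j, ?_, ?_⟩
  · have := Finset.sum_nonneg (fun j (_ : j ∈ Finset.range (k + 1)) => hC0 j)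
    linarith
  intro R hR hR1 s
  set M : V n →L[ℝ] V n := R⁻¹ • ContinuousLinearMap.id ℝ (V n) with hM
  have hMx : ∀ x, M x = R⁻¹ • x := fun x => by simp [hM]
  have hnM : ‖M‖ ≤ R⁻¹ := by
    refine ContinuousLinearMap.opNorm_le_bound _ (inv_nonneg.2 hR.le) (fun x => ?_)
    rw [hMx, norm_smul, Real.norm_of_nonneg (inv_nonneg.2 hR.le)]
  have hR1' : 1 ≤ R⁻¹ := by rw [one_le_inv₀ hR]; exact hR1
  have hnx : ∀ x : V n, ‖R⁻¹ • x‖ = ‖x‖ / R := fun x => by
    rw [norm_smul, Real.norm_of_nonneg (inv_nonneg.2 hR.le), div_eq_inv_mul]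
  have hcomp : ContDiff ℝ ∞ (W ∘ M) := hWs.comp M.contDiff
  refine ⟨fun x => (s * R) • (W ∘ M) x, hcomp.const_smul _, ?_, ?_, ?_, ?_⟩
  · intro j hj x
    have h0 : ContDiffAt ℝ j (W ∘ M) x := hcomp.contDiffAt.of_le (by exact_mod_cast le_top)
    have h1 : iteratedFDeriv ℝ j (fun x => (s * R) • (W ∘ M) x) x =
        (s * R) • iteratedFDeriv ℝ j (W ∘ M) x := iteratedFDeriv_const_smul_apply (a := s * R) h0
    have h2 : ‖iteratedFDeriv ℝ j (W ∘ M) x‖ ≤ C j * (R⁻¹) ^ j := by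
      rw [M.iteratedFDeriv_comp_right hWs x (by exact_mod_cast le_top)]
      refine (ContinuousMultilinearMap.norm_compContinuousLinearMap_le _ _).trans ?_
      rw [Finset.prod_const, Finset.card_univ, Fintype.card_fin]
      exact mul_le_mul (hC j _) (pow_le_pow_left₀ (norm_nonneg _) hnM j)
        (pow_nonneg (norm_nonneg _) _) (hC0 j)
    have h3 : (R⁻¹) ^ j ≤ (R⁻¹) ^ k := pow_le_pow_right₀ hR1' hj
    have h4 : C j ≤ 1 + ∑ j ∈ Finset.range (k + 1), C j := by
      have := Finset.single_le_sum (fun i (_ : i ∈ Finset.range (k + 1)) => hC0 i)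
        (Finset.mem_range.2 (Nat.lt_succ_of_le hj))
      linarith
    have h5 : R * (R⁻¹) ^ k = 1 / R ^ (k - 1) := by
      obtain ⟨k', rfl⟩ : ∃ k', k = k' + 1 := ⟨k - 1, by omega⟩
      rw [Nat.add_sub_cancel, pow_succ, inv_pow]
      field_simp
    rw [h1, norm_smul, Real.norm_eq_abs, abs_mul, abs_of_pos hR]
    calc |s| * R * ‖iteratedFDeriv ℝ j (W ∘ M) x‖
        ≤ |s| * R * ((1 + ∑ j ∈ Finset.range (k + 1), C j) * (R⁻¹) ^ k) := by
          refine mul_le_mul_of_nonneg_left (h2.trans ?_) (by positivity)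
          exact mul_le_mul h4 h3 (by positivity) ((hC0 j).trans h4)
      _ = (1 + ∑ j ∈ Finset.range (k + 1), C j) * (|s| * (R * (R⁻¹) ^ k)) := by ring
      _ = _ := by rw [h5]; ring
  · intro x hx
    show (s * R) • W (M x) = 0
    rw [hMx, hW0 _ (by rw [hnx, le_div_iff₀ hR, one_mul]; exact hx), smul_zero]
  · show (s * R) • W (M 0) = 0
    rw [map_zero, hW, smul_zero, smul_zero]
  · have h1 : HasFDerivAt (W ∘ M) ((ContinuousLinearMap.id ℝ (V n)).comp M) 0 := by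
      refine HasFDerivAt.comp 0 ?_ M.hasFDerivAt
      rw [map_zero]
      exact hWd
    have h2 := h1.const_smul (s * R)
    have h3 : (s * R) • (ContinuousLinearMap.id ℝ (V n)).comp M =
        s • ContinuousLinearMap.id ℝ (V n) := by
      ext1 v
      show (s * R) • (M v) = s • v
      rw [hMx, smul_smul, mul_assoc, mul_inv_cancel₀ hR.ne', mul_one]
    rw [h3] at h2
    exact h2

end Pool.Agent.V8H52.NH
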