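import Pool.Agent.V8H52.NH.Defs

/-!
# Functions over a chain transitive set with periodic shadowing

If the sums of a function over the periodic orbits of period `m` have absolute value at least `c m`,
then all Birkhoff sums grow linearly, with the same sign.
-/

set_option autoImplicit false

open Set Filter Metric
open scoped Topology

universe u

namespace Pool.Agent.V8H52.NH

variable {N : Type u} [MetricSpace N]

/-- the sum of `b` along a chain, without the last point -/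
def Sm (b : N → ℝ) (l : ℕ) (x : ℕ → N) : ℝ := ∑ i ∈ Finset.range l, b (x i)

/-- concatenation -/
def cat (l : ℕ) (x y : ℕ → N) : ℕ → N := fun i => if i < l then x i else y (i - l)

theorem cat_lt {l : ℕ} {x y : ℕ → N} {i : ℕ} (h : i < l) : cat l x y i = x i := if_pos h

theorem cat_ge {l : ℕ} {x y : ℕ → N} {i : ℕ} (h : l ≤ i) : cat l x y i = y (i - l) :=
  if_neg (by omega)

theorem chain_cat {F : N → N} {K : Set N} {η : ℝ} {l l' : ℕ} {x y : ℕ → N}
    (hx : Chain F K η l x) (hy : Chain F K η l' y) (h : x l = y 0) :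
    Chain F K η (l + l') (cat l x y) := by
  refine ⟨fun i hi => ?_, fun i hi => ?_⟩
  · by_cases h1 : i < l
    · rw [cat_lt h1]; exact hx.1 i h1.le
    · rw [cat_ge (by omega)]; exact hy.1 _ (by omega)
  · by_cases h1 : i + 1 < l
    · rw [cat_lt h1, cat_lt (by omega)]; exact hx.2 i (by omega)
    · by_cases h2 : i < l
      · have h3 : i + 1 = l := by omega
        rw [cat_lt h2, cat_ge (by omega), show i + 1 - l = 0 by omega, ← h, ← h3]
        exact hx.2 i (by omega)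
      · rw [cat_ge (by omega), cat_ge (by omega), show i + 1 - l = (i - l) + 1 by omega]
        exact hy.2 _ (by omega)

theorem sm_cat (b : N → ℝ) (l l' : ℕ) (x y : ℕ → N) :
    Sm b (l + l') (cat l x y) = Sm b l x + Sm b l' y := by
  unfold Sm
  rw [Finset.sum_range_add]
  congr 1
  · refine Finset.sum_congr rfl fun i hi => ?_
    rw [cat_lt (Finset.mem_range.1 hi)]
  · refine Finset.sum_congr rfl fun i _ => ?_
    rw [cat_ge (by omega), show l + i - l = i by omega]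

theorem cat_zero {l : ℕ} {x y : ℕ → N} (hl : 1 ≤ l) : cat l x y 0 = x 0 := cat_lt (by omega)

theorem cat_last {l l' : ℕ} {x y : ℕ → N} : cat l x y (l + l') = y l' := by
  rw [cat_ge (by omega), show l + l' - l = l' by omega]

/-- repetition of a closed chain -/
theorem exists_rep {F : N → N} {K : Set N} {η : ℝ} {b : N → ℝ} {l : ℕ} {x : ℕ → N} (hl : 1 ≤ l)
    (hx : Chain F K η l x) (hc : x l = x 0) (k : ℕ) :
    ∃ y : ℕ → N, Chain F K η (k * l) y ∧ y 0 = x 0 ∧ y (k * l) = x 0 ∧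
      Sm b (k * l) y = k * Sm b l x := by
  induction k with
  | zero =>
    refine ⟨x, ⟨fun i hi => ?_, fun i hi => ?_⟩, rfl, by rw [zero_mul], by simp [Sm]⟩
    · rw [zero_mul] at hi
      rw [Nat.le_zero.1 hi]
      exact hx.1 0 (Nat.zero_le _)
    · rw [zero_mul] at hi
      exact absurd hi (Nat.not_lt_zero _)
  | succ k ih =>
    obtain ⟨y, h1, h2, h3, h4⟩ := ih
    refine ⟨cat l x y, ?_, ?_, ?_, ?_⟩
    · rw [show (k + 1) * l = l + k * l by ring]
      exact chain_cat hx h1 (by rw [hc, h2])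
    · exact cat_zero hl
    · rw [show (k + 1) * l = l + k * l by ring, cat_last, h3]
    · rw [show (k + 1) * l = l + k * l by ring, sm_cat, h4]
      push_cast
      ring

/-- uniform bound for the lengths of the chains -/
theorem unif_chain {F : N → N} (hF : Continuous F) {K : Set N} (hK : IsCompact K)
    (hct : ChainTrans F K) {η : ℝ} (hη : 0 < η) :
    ∃ L : ℕ, ∀ x ∈ K, ∀ y ∈ K, ∃ (l : ℕ) (z : ℕ → N), 1 ≤ l ∧ l ≤ L ∧ Chain F K η l z ∧
      z 0 = x ∧ z l = y := by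
  classical
  obtain ⟨η', hη', huc⟩ : ∃ η' > 0, ∀ x ∈ K, ∀ y ∈ K, dist x y < η' → dist (F x) (F y) < η / 3 := by
    have h1 := hK.uniformContinuousOn_of_continuous hF.continuousOn
    obtain ⟨η', hη', h2⟩ := Metric.uniformContinuousOn_iff.1 h1 (η / 3) (by positivity)
    exact ⟨η', hη', fun x hx y hy h => h2 x hx y hy h⟩
  obtain ⟨ε, hε⟩ : ∃ ε : ℝ, ε = min η' (η / 3) := ⟨_, rfl⟩
  have hε0 : 0 < ε := by rw [hε]; exact lt_min hη' (by positivity)
  obtain ⟨t, htK, htf, hcov⟩ := hK.finite_cover_balls hε0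
  have hne : ∀ p : N × N, ∃ l : ℕ, p.1 ∈ K → p.2 ∈ K → ∃ z : ℕ → N, 1 ≤ l ∧
      Chain F K (η / 3) l z ∧ z 0 = p.1 ∧ z l = p.2 := by
    intro p
    by_cases h1 : p.1 ∈ K
    · by_cases h2 : p.2 ∈ K
      · obtain ⟨l, z, h⟩ := hct p.1 h1 p.2 h2 (η / 3) (by positivity)
        exact ⟨l, fun _ _ => ⟨z, h⟩⟩
      · exact ⟨0, fun _ h => absurd h h2⟩
    · exact ⟨0, fun h => absurd h h1⟩
  choose len hlen using hne
  obtain ⟨L, hL⟩ := ((htf.prod htf).image len).bddAbove
  refine ⟨L, fun x hx y hy => ?_⟩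
  obtain ⟨u, hu, hxu⟩ := mem_iUnion₂.1 (hcov hx)
  obtain ⟨v, hv, hyv⟩ := mem_iUnion₂.1 (hcov hy)
  rw [mem_ball] at hxu hyv
  obtain ⟨z, h1, h2, h3, h4⟩ := hlen (u, v) (htK hu) (htK hv)
  have hlL : len (u, v) ≤ L := hL ⟨(u, v), ⟨hu, hv⟩, rfl⟩
  obtain ⟨l, hl⟩ : ∃ l, l = len (u, v) := ⟨_, rfl⟩
  rw [← hl] at h1 h2 h4 hlL
  have hxu' : dist (F x) (F u) < η / 3 := huc x hx u (htK hu) (hxu.trans_le (by
    rw [hε]; exact min_le_left _ _))
  have hyv' : dist v y < η / 3 := by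
    rw [dist_comm]
    exact hyv.trans_le (by rw [hε]; exact min_le_right _ _)
  refine ⟨l, fun i => if i = 0 then x else if i = l then y else z i, h1, hlL, ⟨?_, ?_⟩, ?_, ?_⟩
  · intro i hi
    dsimp only
    split_ifs
    · exact hx
    · exact hy
    · exact h2.1 i hi
  · intro i hi
    have h5 := h2.2 i hi
    have h6 : i + 1 ≠ 0 := Nat.succ_ne_zero i
    by_cases hi0 : i = 0
    · subst hi0
      simp only [if_true, h6, if_false]
      have h3' : z 0 = u := h3
      rw [h3'] at h5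
      by_cases hl1 : 0 + 1 = l
      · rw [if_pos hl1]
        have h4' : z (0 + 1) = v := by rw [hl1]; exact h4
        rw [h4'] at h5
        linarith [dist_triangle (F x) (F u) v, dist_triangle (F x) v y]
      · rw [if_neg hl1]
        linarith [dist_triangle (F x) (F u) (z (0 + 1))]
    · simp only [hi0, if_false, h6]
      have hil : i ≠ l := by omega
      rw [if_neg hil]
      by_cases hl1 : i + 1 = l
      · rw [if_pos hl1]
        have h4' : z (i + 1) = v := by rw [hl1]; exact h4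
        rw [h4'] at h5
        linarith [dist_triangle (F (z i)) v y]
      · rw [if_neg hl1]
        linarith
  · simp
  · dsimp only
    rw [if_neg (by omega), if_pos rfl]

/-- the main statement about functions -/
theorem dichotomy {F : N → N} (hF : Continuous F) {K : Set N} (hK : IsCompact K)
    (hFK : MapsTo F K K) (hct : ChainTrans F K) (hsh : PerShadow F K) {b : N → ℝ}
    (hb : ContinuousOn b K) {c : ℝ} (hc : 0 < c)
    (hper : ∀ p ∈ K, ∀ m : ℕ, 1 ≤ m → F^[m] p = p →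
      c * m ≤ |∑ i ∈ Finset.range m, b (F^[i] p)|) :
    ∃ C : ℝ, (∀ x ∈ K, ∀ m : ℕ, c / 2 * m - C ≤ ∑ i ∈ Finset.range m, b (F^[i] x)) ∨
      ∀ x ∈ K, ∀ m : ℕ, ∑ i ∈ Finset.range m, b (F^[i] x) ≤ -(c / 2 * m) + C := by
  rcases K.eq_empty_or_nonempty with he | ⟨x₀, hx₀⟩
  · exact ⟨0, Or.inl fun x hx => by rw [he] at hx; exact hx.elim⟩
  -- bounds for `b`
  obtain ⟨B, hB⟩ : ∃ B : ℝ, ∀ x ∈ K, |b x| ≤ B := by
    obtain ⟨B, hB⟩ := (hK.image_of_continuousOn hb).isBounded.exists_norm_le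
    exact ⟨B, fun x hx => hB _ ⟨x, hx, rfl⟩⟩
  have hB0 : 0 ≤ B := (abs_nonneg _).trans (hB x₀ hx₀)
  obtain ⟨δ, hδ, huc⟩ : ∃ δ > 0, ∀ x ∈ K, ∀ y ∈ K, dist x y ≤ δ → |b x - b y| ≤ c / 4 := by
    have h1 := hK.uniformContinuousOn_of_continuous hb
    obtain ⟨δ, hδ, h2⟩ := Metric.uniformContinuousOn_iff.1 h1 (c / 4) (by positivity)
    refine ⟨δ / 2, by positivity, fun x hx y hy h => ?_⟩
    have := h2 x hx y hy (by linarith)
    rw [Real.dist_eq] at this
    exact this.le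
  obtain ⟨η, hη, hshad⟩ := hsh δ hδ
  -- closed chains
  have hclosed : ∀ (m : ℕ) (x : ℕ → N), 1 ≤ m → Chain F K η m x → x m = x 0 →
      c / 2 * m ≤ |Sm b m x| := by
    intro m x hm hx hc'
    obtain ⟨p, hp, hpm, hd⟩ := hshad m x hm hx hc'
    have h1 := hper p hp m hm hpm
    have hpK : ∀ i, F^[i] p ∈ K := fun i => by
      induction i with
      | zero => exact hp
      | succ i ih => rw [Function.iterate_succ_apply']; exact hFK ih
    have h2 : |∑ i ∈ Finset.range m, b (F^[i] p) - Sm b m x| ≤ c / 4 * m := by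
      unfold Sm
      rw [← Finset.sum_sub_distrib]
      refine (Finset.abs_sum_le_sum_abs _ _).trans ?_
      have h3 : ∀ i ∈ Finset.range m, |b (F^[i] p) - b (x i)| ≤ c / 4 := fun i hi =>
        huc _ (hpK i) _ (hx.1 i (Finset.mem_range.1 hi).le) (hd i (Finset.mem_range.1 hi).le)
      refine (Finset.sum_le_sum h3).trans ?_
      rw [Finset.sum_const, Finset.card_range, nsmul_eq_mul]
      linarith
    have h4 := abs_sub_abs_le_abs_sub (∑ i ∈ Finset.range m, b (F^[i] p)) (Sm b m x)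
    have h5 : (0 : ℝ) ≤ m := Nat.cast_nonneg m
    nlinarith
  obtain ⟨L, hL⟩ := unif_chain hF hK hct hη
  have hSmB : ∀ (l : ℕ) (x : ℕ → N), Chain F K η l x → |Sm b l x| ≤ B * l := by
    intro l x hx
    unfold Sm
    refine (Finset.abs_sum_le_sum_abs _ _).trans ?_
    refine (Finset.sum_le_sum fun i hi => hB _ (hx.1 i (Finset.mem_range.1 hi).le)).trans ?_
    rw [Finset.sum_const, Finset.card_range, nsmul_eq_mul]
    linarith
  -- the same sign
  have hsign : ∀ (m₁ : ℕ) (x : ℕ → N) (m₂ : ℕ) (y : ℕ → N), 1 ≤ m₁ → Chain F K η m₁ x →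
      x m₁ = x 0 → 1 ≤ m₂ → Chain F K η m₂ y → y m₂ = y 0 → 0 < Sm b m₁ x → ¬ Sm b m₂ y < 0 := by
    intro m₁ x m₂ y hm₁ hx hcx hm₂ hy hcy hpos hneg
    obtain ⟨l₁, z₁, hl₁, -, hz₁, hz₁0, hz₁l⟩ := hL _ (hx.1 0 (Nat.zero_le _)) _
      (hy.1 0 (Nat.zero_le _))
    obtain ⟨l₂, z₂, hl₂, -, hz₂, hz₂0, hz₂l⟩ := hL _ (hy.1 0 (Nat.zero_le _)) _
      (hx.1 0 (Nat.zero_le _))
    -- the closed chains `X^j Z₁ Y^k Z₂`
    have hT : ∀ j k : ℕ, c / 2 * (j * m₁ + l₁ + k * m₂ + l₂) ≤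
        |j * Sm b m₁ x + Sm b l₁ z₁ + k * Sm b m₂ y + Sm b l₂ z₂| := by
      intro j k
      obtain ⟨X, hX1, hX2, hX3, hX4⟩ := exists_rep (b := b) hm₁ hx hcx j
      obtain ⟨Y, hY1, hY2, hY3, hY4⟩ := exists_rep (b := b) hm₂ hy hcy k
      have c1 := chain_cat hY1 hz₂ (by rw [hY3, hz₂0])
      have e1 : cat (k * m₂) Y z₂ 0 = y 0 := by
        rcases Nat.eq_zero_or_pos (k * m₂) with h0 | h0
        · rw [h0, cat_ge (le_refl 0)]
          exact hz₂0
        · rw [cat_zero h0, hY2]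
      have c2 := chain_cat hz₁ c1 (by rw [hz₁l, e1])
      have e2 : cat l₁ z₁ (cat (k * m₂) Y z₂) 0 = x 0 := by rw [cat_zero hl₁, hz₁0]
      have c3 := chain_cat hX1 c2 (by rw [hX3, e2])
      have hlen : 1 ≤ j * m₁ + (l₁ + (k * m₂ + l₂)) := by omega
      have e3 : cat (j * m₁) X (cat l₁ z₁ (cat (k * m₂) Y z₂)) (j * m₁ + (l₁ + (k * m₂ + l₂))) =
          cat (j * m₁) X (cat l₁ z₁ (cat (k * m₂) Y z₂)) 0 := by
        rw [cat_last, cat_last, cat_last, hz₂l]
        rcases Nat.eq_zero_or_pos (j * m₁) with h0 | h0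
        · rw [h0, cat_ge (le_refl 0)]
          exact e2.symm
        · rw [cat_zero h0, hX2]
      have h1 := hclosed _ _ hlen c3 e3
      rw [sm_cat, sm_cat, sm_cat, hX4, hY4] at h1
      push_cast at h1
      have h2 : (j : ℝ) * Sm b m₁ x + (Sm b l₁ z₁ + (k * Sm b m₂ y + Sm b l₂ z₂)) =
          j * Sm b m₁ x + Sm b l₁ z₁ + k * Sm b m₂ y + Sm b l₂ z₂ := by ring
      rw [h2] at h1
      have h3 : c / 2 * ((j : ℝ) * m₁ + (l₁ + (k * m₂ + l₂))) =
          c / 2 * (j * m₁ + l₁ + k * m₂ + l₂) := by ring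
      rw [h3] at h1
      exact h1
    -- choice of `j`
    obtain ⟨j, hj⟩ : ∃ j : ℕ, B * (m₂ + l₁ + l₂) / c + B * (l₁ + l₂) / Sm b m₁ x < j :=
      exists_nat_gt _
    have hj1 : B * (m₂ + l₁ + l₂) < c * j := by
      have h1 : B * (m₂ + l₁ + l₂) / c < j := by
        have : 0 ≤ B * ((l₁ : ℝ) + l₂) / Sm b m₁ x := by positivity
        linarith
      rw [div_lt_iff₀ hc] at h1
      linarith
    have hj2 : B * (l₁ + l₂) < Sm b m₁ x * j := by
      have h1 : B * (l₁ + l₂) / Sm b m₁ x < j := by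
        have : 0 ≤ B * ((m₂ : ℝ) + l₁ + l₂) / c := by positivity
        linarith
      rw [div_lt_iff₀ hpos] at h1
      linarith
    have hz1 := abs_le.1 (hSmB l₁ z₁ hz₁)
    have hz2 := abs_le.1 (hSmB l₂ z₂ hz₂)
    have hyb := abs_le.1 (hSmB m₂ y hy)
    have hm1 : (1 : ℝ) ≤ m₁ := by exact_mod_cast hm₁
    -- induction on `k`: the sum stays positive
    have hstay : ∀ k : ℕ, 0 < j * Sm b m₁ x + Sm b l₁ z₁ + k * Sm b m₂ y + Sm b l₂ z₂ := by
      intro k
      induction k with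
      | zero =>
        push_cast
        nlinarith
      | succ k ih =>
        have h1 := hT j k
        rw [abs_of_pos ih] at h1
        by_contra hcon
        push Not at hcon
        have h2 := hT j (k + 1)
        rw [abs_of_nonpos hcon] at h2
        push_cast at h1 h2 hcon
        have hk0 : (0 : ℝ) ≤ k := Nat.cast_nonneg k
        have hm2 : (0 : ℝ) ≤ m₂ := Nat.cast_nonneg m₂
        have hl1 : (0 : ℝ) ≤ l₁ := Nat.cast_nonneg l₁
        have hl2 : (0 : ℝ) ≤ l₂ := Nat.cast_nonneg l₂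
        have hj0 : (0 : ℝ) ≤ j := Nat.cast_nonneg j
        have h3 : (j : ℝ) ≤ j * m₁ := by nlinarith
        have h4 : 0 ≤ (k : ℝ) * m₂ := by positivity
        nlinarith [mul_le_mul_of_nonneg_left h3 hc.le, mul_nonneg hc.le h4, mul_nonneg hc.le hm2,
          mul_nonneg hc.le hl1, mul_nonneg hc.le hl2, mul_nonneg hB0 hl1, mul_nonneg hB0 hl2]
    -- contradiction for large `k`
    obtain ⟨k, hk⟩ : ∃ k : ℕ, (j * Sm b m₁ x + Sm b l₁ z₁ + Sm b l₂ z₂) / (-Sm b m₂ y) < k :=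
      exists_nat_gt _
    rw [div_lt_iff₀ (by linarith)] at hk
    have := hstay k
    nlinarith
  -- closing segments
  have hclose : ∀ x ∈ K, ∀ m : ℕ, ∃ (l : ℕ) (w : ℕ → N), 1 ≤ l ∧ l ≤ L ∧
      Chain F K η (m + l) w ∧ w (m + l) = w 0 ∧
      |Sm b (m + l) w - ∑ i ∈ Finset.range m, b (F^[i] x)| ≤ B * L := by
    intro x hx m
    have hxK : ∀ i, F^[i] x ∈ K := fun i => by
      induction i with
      | zero => exact hx
      | succ i ih => rw [Function.iterate_succ_apply']; exact hFK ih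
    obtain ⟨l, z, hl, hlL, hz, hz0, hzl⟩ := hL _ (hxK m) _ hx
    have c1 : Chain F K η m (fun i => F^[i] x) := ⟨fun i _ => hxK i, fun i _ => by
      rw [← Function.iterate_succ_apply' F, dist_self]; exact hη⟩
    refine ⟨l, cat m (fun i => F^[i] x) z, hl, hlL, chain_cat c1 hz hz0.symm, ?_, ?_⟩
    · rw [cat_last, hzl]
      rcases Nat.eq_zero_or_pos m with h0 | h0
      · subst h0
        rw [cat_ge (le_refl 0)]
        exact hz0.symm
      · rw [cat_zero h0]
        rfl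
    · rw [sm_cat]
      have h1 : Sm b m (fun i => F^[i] x) = ∑ i ∈ Finset.range m, b (F^[i] x) := rfl
      rw [h1, add_sub_cancel_left]
      refine (hSmB l z hz).trans ?_
      exact mul_le_mul_of_nonneg_left (by exact_mod_cast hlL) hB0
  refine ⟨B * L, ?_⟩
  by_cases hex : ∃ (m : ℕ) (x : ℕ → N), 1 ≤ m ∧ Chain F K η m x ∧ x m = x 0 ∧ 0 < Sm b m x
  · obtain ⟨m₁, x₁, hm₁, hx₁, hc₁, hpos⟩ := hex
    left
    intro x hx m
    obtain ⟨l, w, hl, -, hw, hwc, hwb⟩ := hclose x hx m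
    have h1 := hclosed (m + l) w (by omega) hw hwc
    have h2 := hsign m₁ x₁ (m + l) w hm₁ hx₁ hc₁ (by omega) hw hwc hpos
    rw [abs_of_nonneg (not_lt.1 h2)] at h1
    have h3 := (abs_le.1 hwb).2
    push_cast at h1
    have h4 : (0 : ℝ) ≤ l := Nat.cast_nonneg l
    nlinarith
  · right
    push Not at hex
    intro x hx m
    obtain ⟨l, w, hl, -, hw, hwc, hwb⟩ := hclose x hx m
    have h1 := hclosed (m + l) w (by omega) hw hwc
    have h2 := hex (m + l) w (by omega) hw hwc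
    rw [abs_of_nonpos h2] at h1
    have h3 := (abs_le.1 hwb).1
    push_cast at h1
    have h4 : (0 : ℝ) ≤ l := Nat.cast_nonneg l
    nlinarith

end Pool.Agent.V8H52.NH
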