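import Pool.Agent.H718R2.G0

/-!
# Definitions: pseudo-orbits in a set, chain transitivity, periodic shadowing, sets in hypersurfaces
-/

set_option autoImplicit false

open Set

universe u

namespace Pool.Agent.V8H52.NH

variable {N : Type u} [MetricSpace N]

/-- `x 0, …, x l` is an `η`-pseudo-orbit of `F` in `K`. -/
def Chain (F : N → N) (K : Set N) (η : ℝ) (l : ℕ) (x : ℕ → N) : Prop :=
  (∀ i ≤ l, x i ∈ K) ∧ ∀ i < l, dist (F (x i)) (x (i + 1)) < η

/-- `F` is chain transitive on `K`: any two points of `K` are joined by `η`-pseudo-orbits in `K`, for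
all `η > 0`. -/
def ChainTrans (F : N → N) (K : Set N) : Prop :=
  ∀ x ∈ K, ∀ y ∈ K, ∀ η : ℝ, 0 < η → ∃ (l : ℕ) (z : ℕ → N), 1 ≤ l ∧ Chain F K η l z ∧
    z 0 = x ∧ z l = y

/-- Periodic shadowing on `K`: for every `δ > 0` there is an `η > 0` such that every periodic
`η`-pseudo-orbit in `K` is `δ`-shadowed by a periodic orbit in `K` of the same period. -/
def PerShadow (F : N → N) (K : Set N) : Prop :=
  ∀ δ : ℝ, 0 < δ → ∃ η : ℝ, 0 < η ∧ ∀ (m : ℕ) (x : ℕ → N), 1 ≤ m → Chain F K η m x → x m = x 0 →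
    ∃ p ∈ K, F^[m] p = p ∧ ∀ i ≤ m, dist (F^[i] p) (x i) ≤ δ

end Pool.Agent.V8H52.NH

namespace Pool.Agent.V8H52.NH

open Pool.Agent.H718R2.G
open scoped Manifold ContDiff

/-- the differential of `φ` at `x` (the model space `V n = ℝⁿ` is the tangent space at `x` in
Mathlib) -/
noncomputable def dif (n : ℕ) {N : Type u} [TopologicalSpace N] [ChartedSpace (V n) N] (φ : N → ℝ) (x : N) :
    V n →L[ℝ] ℝ :=
  mfderiv (𝓡 n) 𝓘(ℝ, ℝ) φ x

/-- `φ` is smooth, it vanishes and is regular on the closed set `K`, `F(K) ⊆ K`, and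
`d(φ ∘ F)_x = a(x) dφ_x` for `x ∈ K`: the hyperplanes `ker dφ_x` are invariant under `DF` over `K`, and
`a` is the action of `DF` on the line bundle `TN / ker dφ` over `K`. -/
structure InHypersurface (n : ℕ) {N : Type u} [TopologicalSpace N] [ChartedSpace (V n) N]
    (F : N → N) (φ : N → ℝ) (a : N → ℝ) (K : Set N) : Prop where
  smooth : ContMDiff (𝓡 n) 𝓘(ℝ, ℝ) ∞ φ
  closed : IsClosed K
  maps : MapsTo F K K
  zero : ∀ x ∈ K, φ x = 0
  regular : ∀ x ∈ K, dif n φ x ≠ 0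
  deriv : ∀ x ∈ K, dif n (φ ∘ F) x = a x • dif n φ x

end Pool.Agent.V8H52.NH
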