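import Pool.Agent.H718R2.G0

/-!
# Localised fields which scale the normal derivative
-/

set_option autoImplicit false

open Set Filter Metric
open scoped Topology ContDiff

universe u

namespace Pool.Agent.V8H52.NH

open Pool.Agent.H718R2.G

theorem bounded_iterated {n : ℕ} {U : V n → V n} (hU : ContDiff ℝ ∞ U)
    (hs : ∀ x, 1 / 2 ≤ ‖x‖ → U x = 0) (k : ℕ) :
    ∃ C : ℝ, 0 < C ∧ ∀ j ≤ k, ∀ x, ‖iteratedFDeriv ℝ j U x‖ ≤ C := by
  have h1 : HasCompactSupport U := by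
    refine HasCompactSupport.intro (isCompact_closedBall (0 : V n) (1 / 2)) fun x hx => hs x ?_
    rw [mem_closedBall, dist_zero_right, not_le] at hx
    exact hx.le
  have h2 : ∀ j : ℕ, ∃ C : ℝ, ∀ x, ‖iteratedFDeriv ℝ j U x‖ ≤ C := by
    intro j
    have h3 : Continuous (iteratedFDeriv ℝ j U) :=
      hU.continuous_iteratedFDeriv (by exact_mod_cast le_top)
    exact h3.bounded_above_of_compact_support (h1.iteratedFDeriv j)
  choose C hC using h2
  obtain ⟨B, hB⟩ : ∃ B : ℝ, ∀ j ≤ k, C j ≤ B := by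
    refine ⟨∑ j ∈ Finset.range (k + 1), |C j|, fun j hj => ?_⟩
    refine (le_abs_self _).trans ?_
    exact Finset.single_le_sum (f := fun j => |C j|) (fun i _ => abs_nonneg _)
      (Finset.mem_range.2 (by omega))
  exact ⟨max B 1, lt_of_lt_of_le one_pos (le_max_right _ _), fun j hj x =>
    (hC j x).trans ((hB j hj).trans (le_max_left _ _))⟩

theorem exists_field {n : ℕ} {E : Type*} [NormedAddCommGroup E] [NormedSpace ℝ E]
    [FiniteDimensional ℝ E] (f : V n → E) (hf : ContDiffOn ℝ ∞ f (ball 0 1))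
    (hsurj : Function.Surjective (fderiv ℝ f 0)) :
    ∃ (ρ : ℝ) (θ : V n → ℝ) (U : V n → V n), 0 < ρ ∧ ContDiff ℝ ∞ U ∧
      (∀ x, 1 / 2 ≤ ‖x‖ → U x = 0) ∧ (∀ x, 1 / 2 ≤ ‖x‖ → θ x = 0) ∧
      (∀ x, ‖x‖ ≤ ρ → θ x = 1) ∧ (∀ x, 0 ≤ θ x ∧ θ x ≤ 1) ∧
      ∀ x ∈ ball (0 : V n) 1, f x = 0 → U x = 0 ∧
        ∀ v, fderiv ℝ f x (fderiv ℝ U x v) = θ x • fderiv ℝ f x v := by
  obtain ⟨W₀, hW₀⟩ : ∃ W₀ : E →L[ℝ] V n, (fderiv ℝ f 0).comp W₀ = ContinuousLinearMap.id ℝ E := by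
    obtain ⟨g, hg⟩ := LinearMap.exists_rightInverse_of_surjective
      ((fderiv ℝ f 0 : V n →L[ℝ] E) : V n →ₗ[ℝ] E) (LinearMap.range_eq_top.2 hsurj)
    refine ⟨g.toContinuousLinearMap, ?_⟩
    ext e
    have := LinearMap.congr_fun hg e
    simpa using this
  obtain ⟨M, hM⟩ : ∃ M : V n → E →L[ℝ] E, ∀ x, M x = (fderiv ℝ f x).comp W₀ := ⟨_, fun _ => rfl⟩
  have hdf : ContDiffOn ℝ ∞ (fderiv ℝ f) (ball 0 1) :=
    hf.fderiv_of_isOpen isOpen_ball (by norm_num)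
  have hMs : ContDiffOn ℝ ∞ M (ball 0 1) := by
    have h1 : M = fun x => (fderiv ℝ f x).comp W₀ := funext hM
    rw [h1]
    exact hdf.clm_comp contDiffOn_const
  have hcE : CompleteSpace E := FiniteDimensional.complete ℝ E
  have hM0 : M 0 = 1 := by rw [hM, hW₀]; rfl
  -- the ball where `M` is invertible
  obtain ⟨ρ₁, hρ₁, hunit⟩ : ∃ ρ₁ > 0, ∀ x ∈ ball (0 : V n) ρ₁, IsUnit (M x) := by
    have h1 : ContinuousAt M 0 :=
      (hMs.contDiffAt (isOpen_ball.mem_nhds (mem_ball_self one_pos))).continuousAt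
    have h2 : {a : E →L[ℝ] E | IsUnit a} ∈ 𝓝 (M 0) := by
      rw [hM0]
      exact Units.isOpen.mem_nhds (show IsUnit (1 : E →L[ℝ] E) from isUnit_one)
    exact Metric.mem_nhds_iff.1 (h1.preimage_mem_nhds h2)
  obtain ⟨ρ, hρ⟩ : ∃ ρ, ρ = min (ρ₁ / 4) (1 / 8) := ⟨_, rfl⟩
  have hρ0 : 0 < ρ := by rw [hρ]; positivity
  have hρa : ρ ≤ ρ₁ / 4 := by rw [hρ]; exact min_le_left _ _
  have hρb : ρ ≤ 1 / 8 := by rw [hρ]; exact min_le_right _ _
  let b : ContDiffBump (0 : V n) := ⟨ρ, 2 * ρ, hρ0, by linarith⟩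
  have hb0 : ∀ x, 2 * ρ ≤ ‖x‖ → b x = 0 := fun x hx =>
    b.zero_of_le_dist (by rw [dist_zero_right]; exact hx)
  have hb1 : ∀ x, ‖x‖ ≤ ρ → b x = 1 := fun x hx =>
    b.one_of_mem_closedBall (by rw [mem_closedBall, dist_zero_right]; exact hx)
  -- the coefficient
  obtain ⟨L, hL⟩ : ∃ L : V n → E →L[ℝ] V n, ∀ x, L x = b x • W₀.comp (Ring.inverse (M x)) :=
    ⟨_, fun _ => rfl⟩
  have hLs : ∀ x ∈ ball (0 : V n) (3 * ρ), ContDiffAt ℝ ∞ L x := by
    intro x hx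
    have hx1 : x ∈ ball (0 : V n) 1 := ball_subset_ball (by linarith) hx
    have hx2 : x ∈ ball (0 : V n) ρ₁ := ball_subset_ball (by linarith) hx
    obtain ⟨u, hu⟩ := hunit x hx2
    have h1 : ContDiffAt ℝ ∞ (Ring.inverse : (E →L[ℝ] E) → (E →L[ℝ] E)) (M x) := by
      rw [← hu]
      exact contDiffAt_ringInverse ℝ u
    have h2 : ContDiffAt ℝ ∞ (fun x => Ring.inverse (M x)) x :=
      h1.comp x (hMs.contDiffAt (isOpen_ball.mem_nhds hx1))
    have h3 : ContDiffAt ℝ ∞ (fun x => b x • W₀.comp (Ring.inverse (M x))) x :=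
      b.contDiff.contDiffAt.smul (contDiffAt_const.clm_comp h2)
    have h4 : L = fun x => b x • W₀.comp (Ring.inverse (M x)) := funext hL
    rw [h4]
    exact h3
  obtain ⟨U, hU⟩ : ∃ U : V n → V n, ∀ x, U x = L x (f x) := ⟨_, fun _ => rfl⟩
  have hU' : U = fun x => L x (f x) := funext hU
  have hU0 : ∀ x, 2 * ρ ≤ ‖x‖ → U x = 0 := by
    intro x hx
    rw [hU, hL, hb0 x hx]
    show (0 : ℝ) • W₀ (Ring.inverse (M x) (f x)) = 0
    exact zero_smul ℝ _
  have hU0' : ∀ x : V n, x ∉ ball (0 : V n) (3 * ρ) → U =ᶠ[𝓝 x] fun _ => 0 := by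
    intro x hx
    rw [mem_ball, dist_zero_right, not_lt] at hx
    have h1 : ∀ᶠ y in 𝓝 x, 2 * ρ < ‖y‖ :=
      continuous_norm.continuousAt.eventually (lt_mem_nhds (by linarith))
    filter_upwards [h1] with y hy
    exact hU0 y hy.le
  have hfat : ∀ x ∈ ball (0 : V n) 1, ContDiffAt ℝ ∞ f x := fun x hx =>
    hf.contDiffAt (isOpen_ball.mem_nhds hx)
  refine ⟨ρ, b, U, hρ0, ?_, fun x hx => hU0 x (by linarith), fun x hx => hb0 x (by linarith),
    hb1, fun x => ⟨b.nonneg, b.le_one⟩, ?_⟩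
  · rw [contDiff_iff_contDiffAt]
    intro x
    by_cases hx : x ∈ ball (0 : V n) (3 * ρ)
    · rw [hU']
      exact (hLs x hx).clm_apply (hfat x (ball_subset_ball (by linarith) hx))
    · exact contDiffAt_const.congr_of_eventuallyEq (hU0' x hx)
  · intro x hx hfx
    refine ⟨by rw [hU, hfx, map_zero], fun v => ?_⟩
    by_cases hx3 : x ∈ ball (0 : V n) (3 * ρ)
    · have h1 : HasFDerivAt L (fderiv ℝ L x) x :=
        ((hLs x hx3).differentiableAt (by simp)).hasFDerivAt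
      have h2 : HasFDerivAt f (fderiv ℝ f x) x :=
        ((hfat x hx).differentiableAt (by simp)).hasFDerivAt
      have h3 := h1.clm_apply h2
      rw [← hU', hfx] at h3
      rw [h3.fderiv]
      have h4 : ((L x).comp (fderiv ℝ f x) + (fderiv ℝ L x).flip 0) v =
          L x (fderiv ℝ f x v) := by
        rw [map_zero, add_zero]
        rfl
      rw [h4, hL]
      obtain ⟨u, hu⟩ := hunit x (ball_subset_ball (by linarith) hx3)
      show fderiv ℝ f x (b x • W₀ (Ring.inverse (M x) (fderiv ℝ f x v))) = _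
      rw [map_smul]
      congr 1
      have h5 : fderiv ℝ f x (W₀ (Ring.inverse (M x) (fderiv ℝ f x v))) =
          (M x * Ring.inverse (M x)) (fderiv ℝ f x v) := by
        rw [hM]; rfl
      rw [h5, ← hu, Ring.mul_inverse_cancel _ u.isUnit]
      rfl
    · have h1 : fderiv ℝ U x = 0 := by
        rw [(hU0' x hx3).fderiv_eq]
        simp
      have h2 : b x = 0 := by
        rw [mem_ball, dist_zero_right, not_lt] at hx3
        exact hb0 x (by linarith)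
      rw [h1, h2]
      simp

end Pool.Agent.V8H52.NH
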