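import Pool.Agent.V8H52.NH.Norm

/-!
# The gap for the eigenvalues of the normal cocycle at the periodic points
-/

set_option autoImplicit false
set_option linter.unusedSectionVars false

open scoped Manifold ContDiff Topology
open Filter Set Metric

universe u

namespace Pool.Agent.V8H52.NH

open Pool.Agent.H718R2.G Pool.Agent.TH80.OMS Pool.Agent.Y504.CO

/-- `A(F^(m-1) x) ∘ ... ∘ A(F x) ∘ A(x)` -/
def cocyc {N E : Type*} [NormedAddCommGroup E] [NormedSpace ℝ E] (F : N → N) (A : N → E →L[ℝ] E) :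
    ℕ → N → E →L[ℝ] E
  | 0, _ => ContinuousLinearMap.id ℝ E
  | m + 1, x => (A (F^[m] x)).comp (cocyc F A m x)

section

variable {n : ℕ} {N : Type u} [TopologicalSpace N] [T2Space N] [CompactSpace N]
  [ChartedSpace (V n) N] [IsManifold (𝓡 n) ∞ N]
  {E : Type*} [NormedAddCommGroup E] [NormedSpace ℝ E] [FiniteDimensional ℝ E]

theorem iter_deriv {r : ℕ∞} (hr : 1 ≤ r) (G : DiffM n N r) {φ : N → E}
    (hφ : ContMDiff (𝓡 n) 𝓘(ℝ, E) ∞ φ) {K : Set N} (hK : MapsTo G K K) {A : N → E →L[ℝ] E}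
    (hA : ∀ x ∈ K, mfderiv (𝓡 n) 𝓘(ℝ, E) (φ ∘ G) x =
      (A x).comp (mfderiv (𝓡 n) 𝓘(ℝ, E) φ x)) (m : ℕ) {x : N} (hx : x ∈ K) :
    mfderiv (𝓡 n) 𝓘(ℝ, E) (φ ∘ G^[m]) x =
      (cocyc G A m x).comp (mfderiv (𝓡 n) 𝓘(ℝ, E) φ x) := by
  induction m with
  | zero => rfl
  | succ m ih =>
    have hG : MDifferentiableAt (𝓡 n) (𝓡 n) G^[m] x :=
      (Pool.Agent.Y675.CO.CI.smooth_iter hr G m).mdifferentiableAt one_ne_zero
    have hG1 : MDifferentiableAt (𝓡 n) (𝓡 n) G (G^[m] x) :=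
      (Pool.Agent.Y675.CO.CI.smooth1 hr G).mdifferentiableAt one_ne_zero
    have hφ1 : MDifferentiableAt (𝓡 n) 𝓘(ℝ, E) φ (G^[m] x) := hφ.mdifferentiableAt (by simp)
    have hφ2 : MDifferentiableAt (𝓡 n) 𝓘(ℝ, E) φ (G (G^[m] x)) := hφ.mdifferentiableAt (by simp)
    have hφG : MDifferentiableAt (𝓡 n) 𝓘(ℝ, E) (φ ∘ G) (G^[m] x) :=
      MDifferentiableAt.comp _ hφ2 hG1
    have e1 : φ ∘ G^[m + 1] = (φ ∘ G) ∘ G^[m] := by
      rw [Function.iterate_succ']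
      rfl
    have hxm : G^[m] x ∈ K := hK.iterate m hx
    rw [e1, mfderiv_comp x hφG hG, hA _ hxm]
    rw [mfderiv_comp x hφ1 hG] at ih
    show (A (G^[m] x)).comp ((mfderiv (𝓡 n) 𝓘(ℝ, E) φ (G^[m] x)).comp
      (mfderiv (𝓡 n) (𝓡 n) G^[m] x)) = (A (G^[m] x)).comp ((cocyc G A m x).comp _)
    rw [ih]

/-- the eigenvalues of the normal cocycle at a periodic point are eigenvalues of the derivative -/
theorem eig_norm {r : ℕ∞} (hr : 1 ≤ r) (G : DiffM n N r) {φ : N → E}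
    (hφ : ContMDiff (𝓡 n) 𝓘(ℝ, E) ∞ φ) {p : N} {m : ℕ} (hm : 1 ≤ m) (hp : G^[m] p = p)
    (hs : Function.Surjective (mfderiv (𝓡 n) 𝓘(ℝ, E) φ p)) {B : E →L[ℝ] E}
    (hB : mfderiv (𝓡 n) 𝓘(ℝ, E) (φ ∘ G^[m]) p = B.comp (mfderiv (𝓡 n) 𝓘(ℝ, E) φ p))
    (hyp : IsHyperbolicPer n G p) {μ : ℂ} (hμ : Eig (B : E →ₗ[ℝ] E) μ) : ‖μ‖ ≠ 1 := by
  set ψ := chartAt (V n) p with hψ
  have hψm : ψ ∈ IsManifold.maximalAtlas (𝓡 n) ∞ N := IsManifold.chart_mem_maximalAtlas p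
  have hpψ : p ∈ ψ.source := mem_chart_source (V n) p
  have ht : ψ p ∈ ψ.target := ψ.map_source hpψ
  have hsp : ψ.symm (ψ p) = p := ψ.left_inv hpψ
  obtain ⟨D, hD, hmod⟩ := hyp.2 m hm hp ψ hψm hpψ
  refine hmod μ ?_
  -- derivatives in the chart
  have hsm : MDifferentiableAt 𝓘(ℝ, V n) (𝓡 n) ψ.symm (ψ p) :=
    ((contMDiffOn_symm_of_mem_maximalAtlas hψm).contMDiffAt
      (ψ.open_target.mem_nhds ht)).mdifferentiableAt (by simp)
  have hψd : MDifferentiableAt (𝓡 n) 𝓘(ℝ, V n) ψ p :=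
    ((contMDiffOn_of_mem_maximalAtlas hψm).contMDiffAt
      (ψ.open_source.mem_nhds hpψ)).mdifferentiableAt (by simp)
  have hGm : MDifferentiableAt (𝓡 n) (𝓡 n) G^[m] p :=
    (Pool.Agent.Y675.CO.CI.smooth_iter hr G m).mdifferentiableAt one_ne_zero
  have hφ1 : MDifferentiableAt (𝓡 n) 𝓘(ℝ, E) φ p := hφ.mdifferentiableAt (by simp)
  have hφ2 : MDifferentiableAt (𝓡 n) 𝓘(ℝ, E) φ (G^[m] p) := hφ.mdifferentiableAt (by simp)
  have hφG : MDifferentiableAt (𝓡 n) 𝓘(ℝ, E) (φ ∘ G^[m]) p := MDifferentiableAt.comp _ hφ2 hGm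
  -- the factor map
  obtain ⟨T, hT⟩ : ∃ T : V n →L[ℝ] V n, T = mfderiv 𝓘(ℝ, V n) (𝓡 n) ψ.symm (ψ p) := ⟨_, rfl⟩
  have hTs : Function.Surjective T := by
    have e1 : ψ.symm ∘ ψ =ᶠ[𝓝 p] id := by
      filter_upwards [ψ.open_source.mem_nhds hpψ] with y hy
      exact ψ.left_inv hy
    have h1 : mfderiv (𝓡 n) (𝓡 n) (ψ.symm ∘ ψ) p = ContinuousLinearMap.id ℝ (V n) := by
      rw [e1.mfderiv_eq]
      exact mfderiv_id
    rw [mfderiv_comp p hsm hψd] at h1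
    intro v
    refine ⟨mfderiv (𝓡 n) 𝓘(ℝ, V n) ψ p v, ?_⟩
    rw [hT]
    exact DFunLike.congr_fun h1 v
  obtain ⟨L, hL⟩ : ∃ L : V n →L[ℝ] E, L = mfderiv (𝓡 n) 𝓘(ℝ, E) φ p := ⟨_, rfl⟩
  have hφψ : HasFDerivAt (φ ∘ ψ.symm) (L.comp T) (ψ p) := by
    have h1 : HasMFDerivAt 𝓘(ℝ, V n) 𝓘(ℝ, E) (φ ∘ ψ.symm) (ψ p) (L.comp T) := by
      rw [hT]
      refine HasMFDerivAt.comp _ ?_ hsm.hasMFDerivAt
      rw [hsp, hL]
      exact hφ1.hasMFDerivAt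
    exact h1.hasFDerivAt
  have hφGψ : HasFDerivAt ((φ ∘ G^[m]) ∘ ψ.symm) ((B.comp L).comp T) (ψ p) := by
    have h1 : HasMFDerivAt 𝓘(ℝ, V n) 𝓘(ℝ, E) ((φ ∘ G^[m]) ∘ ψ.symm) (ψ p)
        ((B.comp L).comp T) := by
      rw [hT]
      refine HasMFDerivAt.comp _ ?_ hsm.hasMFDerivAt
      rw [hsp, hL]
      have h2 := hφG.hasMFDerivAt
      rw [hB] at h2
      exact h2
    exact h1.hasFDerivAt
  -- the composition
  have hcomp : HasFDerivAt ((φ ∘ ψ.symm) ∘ fun v => ψ (G^[m] (ψ.symm v))) ((L.comp T).comp D)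
      (ψ p) := by
    refine HasFDerivAt.comp _ ?_ hD
    have : ψ (G^[m] (ψ.symm (ψ p))) = ψ p := by rw [hsp, hp]
    rw [this]
    exact hφψ
  have hev : ((φ ∘ ψ.symm) ∘ fun v => ψ (G^[m] (ψ.symm v))) =ᶠ[𝓝 (ψ p)]
      (φ ∘ G^[m]) ∘ ψ.symm := by
    have h1 : ContinuousAt (fun v => G^[m] (ψ.symm v)) (ψ p) :=
      ContinuousAt.comp (g := G^[m]) (G.continuous.iterate m).continuousAt
        (ψ.continuousAt_symm ht)
    have h2 : ∀ᶠ v in 𝓝 (ψ p), G^[m] (ψ.symm v) ∈ ψ.source := by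
      refine h1.eventually (ψ.open_source.mem_nhds ?_)
      show G^[m] (ψ.symm (ψ p)) ∈ ψ.source
      rw [hsp, hp]
      exact hpψ
    filter_upwards [h2] with v hv
    show φ (ψ.symm (ψ (G^[m] (ψ.symm v)))) = φ (G^[m] (ψ.symm v))
    rw [ψ.left_inv hv]
  have hfac : (L.comp T).comp D = (B.comp L).comp T :=
    (hcomp.congr_of_eventuallyEq hev.symm).unique hφGψ
  refine eig_of_factor (D : V n →ₗ[ℝ] V n) (B : E →ₗ[ℝ] E) ((L.comp T : V n →L[ℝ] E) :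
    V n →ₗ[ℝ] E) ?_ (fun w => DFunLike.congr_fun hfac w) hμ
  intro e
  obtain ⟨v, hv⟩ := hs e
  obtain ⟨w, rfl⟩ := hTs v
  exact ⟨w, by rw [← hv, ← hL]; rfl⟩

theorem cocyc_smul {N : Type*} {F G : N → N} {K : Set N} (hK : MapsTo F K K)
    (hG : ∀ x ∈ K, G x = F x) (A : N → E →L[ℝ] E) (c : N → ℝ) (m : ℕ) {x : N} (hx : x ∈ K) :
    G^[m] x = F^[m] x ∧ cocyc G (fun x => c x • A x) m x =
      (∏ i ∈ Finset.range m, c (F^[i] x)) • cocyc F A m x := by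
  induction m with
  | zero =>
    refine ⟨rfl, ?_⟩
    rw [Finset.range_zero, Finset.prod_empty, one_smul]
    rfl
  | succ m ih =>
    obtain ⟨h1, h2⟩ := ih
    refine ⟨?_, ?_⟩
    · rw [Function.iterate_succ_apply', Function.iterate_succ_apply', h1, hG _ (hK.iterate m hx)]
    · show (c (G^[m] x) • A (G^[m] x)).comp (cocyc G (fun x => c x • A x) m x) = _
      rw [h1, h2, Finset.prod_range_succ]
      ext e
      show c (F^[m] x) • A (F^[m] x) ((∏ i ∈ Finset.range m, c (F^[i] x)) • cocyc F A m x e) =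
        ((∏ i ∈ Finset.range m, c (F^[i] x)) * c (F^[m] x)) •
          (A (F^[m] x) (cocyc F A m x e))
      rw [map_smul, smul_smul, mul_comm]

theorem cocyc_surj {N : Type*} {F : N → N} {K : Set N} (hK : MapsTo F K K) {A : N → E →L[ℝ] E}
    (hA : ∀ x ∈ K, Function.Surjective (A x)) (m : ℕ) {x : N} (hx : x ∈ K) :
    Function.Surjective (cocyc F A m x) := by
  induction m with
  | zero => exact fun e => ⟨e, rfl⟩
  | succ m ih =>
    intro e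
    obtain ⟨v, hv⟩ := hA _ (hK.iterate m hx) e
    obtain ⟨w, hw⟩ := ih v
    exact ⟨w, by rw [← hv, ← hw]; rfl⟩

/-- the factor is surjective -/
theorem A_surj {r : ℕ∞} (hr : 1 ≤ r) (F : DiffM n N r) {φ : N → E}
    (hφ : ContMDiff (𝓡 n) 𝓘(ℝ, E) ∞ φ) {x : N}
    (hs : Function.Surjective (mfderiv (𝓡 n) 𝓘(ℝ, E) φ (F x))) {B : E →L[ℝ] E}
    (hB : mfderiv (𝓡 n) 𝓘(ℝ, E) (φ ∘ F) x = B.comp (mfderiv (𝓡 n) 𝓘(ℝ, E) φ x)) :
    Function.Surjective B := by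
  have hF1 : MDifferentiableAt (𝓡 n) (𝓡 n) F x :=
    (Pool.Agent.Y675.CO.CI.smooth1 hr F).mdifferentiableAt one_ne_zero
  have hF2 : MDifferentiableAt (𝓡 n) (𝓡 n) F (F.symm (F x)) :=
    (Pool.Agent.Y675.CO.CI.smooth1 hr F).mdifferentiableAt one_ne_zero
  have hF3 : MDifferentiableAt (𝓡 n) (𝓡 n) F.symm (F x) :=
    (Pool.Agent.Y675.CO.CI.smooth1 hr F.symm).mdifferentiableAt one_ne_zero
  have hφ1 : MDifferentiableAt (𝓡 n) 𝓘(ℝ, E) φ (F x) := hφ.mdifferentiableAt (by simp)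
  have e1 : F ∘ F.symm = id := by
    funext y
    exact F.apply_symm_apply y
  have h1 : mfderiv (𝓡 n) (𝓡 n) (F ∘ F.symm) (F x) = ContinuousLinearMap.id ℝ (V n) := by
    rw [e1]
    exact mfderiv_id
  rw [mfderiv_comp (F x) hF2 hF3] at h1
  have h2 : ∀ w : V n, ∃ v : V n, mfderiv (𝓡 n) (𝓡 n) F x v = w := by
    intro w
    have h3 := DFunLike.congr_fun h1 w
    have h4 : F.symm (F x) = x := F.symm_apply_apply x
    refine ⟨mfderiv (𝓡 n) (𝓡 n) F.symm (F x) w, ?_⟩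
    have h5 : mfderiv (𝓡 n) (𝓡 n) F (F.symm (F x)) (mfderiv (𝓡 n) (𝓡 n) F.symm (F x) w) = w := h3
    rw [h4] at h5
    exact h5
  intro e
  obtain ⟨w, hw⟩ := hs e
  obtain ⟨v, hv⟩ := h2 w
  refine ⟨mfderiv (𝓡 n) 𝓘(ℝ, E) φ x v, ?_⟩
  have h6 := DFunLike.congr_fun hB v
  rw [mfderiv_comp x hφ1 hF1] at h6
  have h7 : mfderiv (𝓡 n) 𝓘(ℝ, E) φ (F x) (mfderiv (𝓡 n) (𝓡 n) F x v) =
    B (mfderiv (𝓡 n) 𝓘(ℝ, E) φ x v) := h6
  rw [← h7, hv]
  exact hw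

/-- **The gap.** -/
theorem gap {r : ℕ∞} (hr : 1 ≤ r) (F : DiffM n N r) (hF : OmegaStable n N r F) {φ : N → E}
    (hφ : ContMDiff (𝓡 n) 𝓘(ℝ, E) ∞ φ) {K : Set N} (hK : IsClosed K) (hm : MapsTo F K K)
    (h0 : ∀ x ∈ K, φ x = 0) (hs : ∀ x ∈ K, Function.Surjective (mfderiv (𝓡 n) 𝓘(ℝ, E) φ x))
    {A : N → E →L[ℝ] E} (hA : ∀ x ∈ K, mfderiv (𝓡 n) 𝓘(ℝ, E) (φ ∘ F) x =
      (A x).comp (mfderiv (𝓡 n) 𝓘(ℝ, E) φ x)) :
    ∃ c : ℝ, 0 < c ∧ ∀ p ∈ K, ∀ m : ℕ, 1 ≤ m → F^[m] p = p → ∀ μ : ℂ,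
      Eig (cocyc F A m p : E →ₗ[ℝ] E) μ → μ ≠ 0 ∧ c * m ≤ |Real.log ‖μ‖| := by
  classical
  obtain ⟨U, hU, hFU, hconj⟩ := hF
  have hst : ∀ G ∈ U, OmegaStable n N r G := fun G hG =>
    ⟨U, hU, hG, fun G' hG' => Pool.Agent.V8H52.OS.conj_of_conj F.continuous (hconj G hG)
      (hconj G' hG')⟩
  rcases K.eq_empty_or_nonempty with hKe | hKne
  · refine ⟨1, one_pos, fun p hp => ?_⟩
    rw [hKe] at hp
    exact hp.elim
  have hloc : ∀ z : K, _ := fun z => local_pert hr F U hU hFU hφ (hs z z.2)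
  choose θ t₀ ht₀ ht₁ hθ hθ1 hG using hloc
  obtain ⟨Z, hZ⟩ := hK.isCompact.elim_nhds_subcover' (fun x hx => {y | θ ⟨x, hx⟩ y = 1})
    (fun x hx => hθ1 ⟨x, hx⟩)
  have hcov : ∀ y ∈ K, ∃ z ∈ Z, θ z y = 1 := by
    intro y hy
    obtain ⟨z, hz, hzy⟩ := mem_iUnion₂.1 (hZ hy)
    exact ⟨z, hz, hzy⟩
  have hZne : Z.Nonempty := by
    obtain ⟨y, hy⟩ := hKne
    obtain ⟨z, hz, -⟩ := hcov y hy
    exact ⟨z, hz⟩
  obtain ⟨zt, hzt, hmin⟩ := Finset.exists_min_image Z t₀ hZne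
  obtain ⟨t₁, ht⟩ : ∃ t₁, t₁ = t₀ zt := ⟨_, rfl⟩
  have ht10 : 0 < t₁ := by rw [ht]; exact ht₀ _
  have ht12 : t₁ ≤ 1 / 2 := by rw [ht]; exact ht₁ _
  have htZ : ∀ z ∈ Z, t₁ ≤ t₀ z := fun z hz => by rw [ht]; exact hmin z hz
  obtain ⟨q, hq⟩ : ∃ q : ℝ, q = (Z.card : ℝ) := ⟨_, rfl⟩
  have hq0 : 0 < q := by rw [hq]; exact_mod_cast hZne.card_pos
  have hlog : 0 < Real.log (1 + t₁) := Real.log_pos (by linarith)
  refine ⟨Real.log (1 + t₁) / q, by positivity, fun p hp m hm1 hmp μ hμ => ?_⟩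
  have hAs : ∀ x ∈ K, Function.Surjective (A x) := fun x hx =>
    A_surj hr F hφ (hs _ (hm hx)) (hA x hx)
  have hμ0 : μ ≠ 0 := eig_ne_zero (A := (cocyc F A m p : E →ₗ[ℝ] E))
    (cocyc_surj hm hAs m hp) hμ
  refine ⟨hμ0, ?_⟩
  by_contra hlt
  rw [not_le] at hlt
  -- a ball which is visited often
  have hit : ∀ i : ℕ, F^[i + 1] p ∈ K := fun i => hm.iterate (i + 1) hp
  have haz : ∀ i : ℕ, ∃ z ∈ Z, θ z (F^[i + 1] p) = 1 := fun i => hcov _ (hit i)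
  choose az haZ haθ using haz
  obtain ⟨z, hz, hcard⟩ := Finset.exists_le_card_fiber_of_nsmul_le_card_of_maps_to
    (s := Finset.range m) (t := Z) (f := az) (b := (m : ℝ) / q) (fun i _ => haZ i) hZne
    (by rw [Finset.card_range, nsmul_eq_mul, ← hq]; exact le_of_eq (by field_simp))
  obtain ⟨I, hI⟩ : ∃ I, I = (Finset.range m).filter (fun i => az i = z) := ⟨_, rfl⟩
  rw [← hI] at hcard
  have hIθ : ∀ i ∈ I, θ z (F^[i + 1] p) = 1 := by
    intro i hi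
    rw [hI, Finset.mem_filter] at hi
    rw [← hi.2]
    exact haθ i
  have hIm : I ⊆ Finset.range m := by rw [hI]; exact Finset.filter_subset _ _
  -- the logarithm of the factor
  obtain ⟨h, hh⟩ : ∃ h : ℝ → ℝ, ∀ t, h t = ∑ i ∈ Finset.range m,
    Real.log (1 + t * θ z (F^[i + 1] p)) := ⟨_, fun _ => rfl⟩
  have hpos : ∀ t : ℝ, |t| ≤ t₁ → ∀ i, 0 < 1 + t * θ z (F^[i + 1] p) := by
    intro t htt i
    obtain ⟨h1, h2⟩ := hθ z (F^[i + 1] p)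
    have h3 := abs_le.1 htt
    nlinarith
  have hh1 : Real.log (1 + t₁) / q * m ≤ h t₁ := by
    rw [hh]
    calc Real.log (1 + t₁) / q * m = (m : ℝ) / q * Real.log (1 + t₁) := by ring
      _ ≤ (I.card : ℝ) * Real.log (1 + t₁) := mul_le_mul_of_nonneg_right hcard hlog.le
      _ = ∑ i ∈ I, Real.log (1 + t₁ * θ z (F^[i + 1] p)) := by
          rw [Finset.sum_congr rfl (fun i hi => by rw [hIθ i hi, mul_one]), Finset.sum_const,
            nsmul_eq_mul]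
      _ ≤ _ := by
          refine Finset.sum_le_sum_of_subset_of_nonneg hIm fun i _ _ => ?_
          refine Real.log_nonneg ?_
          have := (hθ z (F^[i + 1] p)).1
          nlinarith
  have hh2 : h (-t₁) ≤ -(Real.log (1 + t₁) / q * m) := by
    have h1 : Real.log (1 - t₁) ≤ -Real.log (1 + t₁) := by
      rw [← Real.log_inv]
      refine Real.log_le_log (by linarith) ?_
      rw [le_inv_comm₀ (by linarith) (by linarith), ← one_div, le_div_iff₀ (by linarith)]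
      nlinarith
    have h2 : Real.log (1 + t₁) / q * m ≤ -h (-t₁) := by
      rw [hh, ← Finset.sum_neg_distrib]
      calc Real.log (1 + t₁) / q * m = (m : ℝ) / q * Real.log (1 + t₁) := by ring
        _ ≤ (I.card : ℝ) * Real.log (1 + t₁) := mul_le_mul_of_nonneg_right hcard hlog.le
        _ = ∑ i ∈ I, Real.log (1 + t₁) := by rw [Finset.sum_const, nsmul_eq_mul]
        _ ≤ ∑ i ∈ I, -Real.log (1 + -t₁ * θ z (F^[i + 1] p)) := by
            refine Finset.sum_le_sum fun i hi => ?_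
            rw [hIθ i hi, mul_one, ← sub_eq_add_neg]
            linarith
        _ ≤ _ := by
            refine Finset.sum_le_sum_of_subset_of_nonneg hIm fun i _ _ => ?_
            rw [neg_nonneg]
            obtain ⟨h3, h4⟩ := hθ z (F^[i + 1] p)
            refine Real.log_nonpos ?_ ?_
            · nlinarith
            · nlinarith
    linarith
  have hcont : ContinuousOn h (Icc (-t₁) t₁) := by
    have e : h = fun t => ∑ i ∈ Finset.range m, Real.log (1 + t * θ z (F^[i + 1] p)) := funext hh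
    rw [e]
    refine continuousOn_finset_sum _ fun i _ => ?_
    refine ContinuousOn.log (by fun_prop) fun t ht' => ?_
    exact (hpos t (abs_le.2 ht') i).ne'
  obtain ⟨t, htI, hht⟩ : -Real.log ‖μ‖ ∈ h '' Icc (-t₁) t₁ := by
    refine intermediate_value_Icc (by linarith) hcont ⟨?_, ?_⟩
    · have := (abs_lt.1 hlt).2
      linarith
    · have := (abs_lt.1 hlt).1
      linarith
  have htt : |t| ≤ t₁ := abs_le.2 htI
  obtain ⟨G, hGU, hGx⟩ := hG z t (htt.trans (htZ z hz))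
  have hGF : ∀ x ∈ K, G x = F x := fun x hx => (hGx x (h0 _ (hm hx))).1
  have hGK : MapsTo G K K := fun x hx => by rw [hGF x hx]; exact hm hx
  have hGA : ∀ x ∈ K, mfderiv (𝓡 n) 𝓘(ℝ, E) (φ ∘ G) x =
      ((fun x => (1 + t * θ z (F x)) • A x) x).comp (mfderiv (𝓡 n) 𝓘(ℝ, E) φ x) := by
    intro x hx
    rw [(hGx x (h0 _ (hm hx))).2, hA x hx]
    rfl
  obtain ⟨e1, e2⟩ := cocyc_smul hm hGF A (fun x => 1 + t * θ z (F x)) m hp
  have hGmp : G^[m] p = p := by rw [e1, hmp]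
  have hder := iter_deriv hr G hφ hGK hGA m hp
  rw [e2] at hder
  obtain ⟨P, hP⟩ : ∃ P : ℝ, P = ∏ i ∈ Finset.range m, (1 + t * θ z (F (F^[i] p))) := ⟨_, rfl⟩
  rw [← hP] at hder
  have hPi : P = ∏ i ∈ Finset.range m, (1 + t * θ z (F^[i + 1] p)) := by
    rw [hP]
    refine Finset.prod_congr rfl fun i _ => ?_
    rw [Function.iterate_succ_apply']
  have hP0 : 0 < P := by
    rw [hPi]
    exact Finset.prod_pos fun i _ => hpos t htt i
  have hPlog : Real.log P = -Real.log ‖μ‖ := by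
    rw [hPi, Real.log_prod (fun i _ => (hpos t htt i).ne'), ← hht, hh]
  have hPμ : P * ‖μ‖ = 1 := by
    have h1 : 0 < ‖μ‖ := norm_pos_iff.2 hμ0
    have h2 : Real.log (P * ‖μ‖) = 0 := by
      rw [Real.log_mul hP0.ne' h1.ne', hPlog]
      ring
    have h3 := Real.exp_log (mul_pos hP0 h1)
    rw [h2, Real.exp_zero] at h3
    exact h3.symm
  have hyp := Gen.stable_hyp hr (hst G hGU) p ⟨m, hm1, hGmp⟩
  refine eig_norm hr G hφ hm1 hGmp (hs p hp) hder hyp (μ := (P : ℂ) * μ) ?_ ?_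
  · exact eig_smul (A := (cocyc F A m p : E →ₗ[ℝ] E)) hμ hP0.ne'
  · rw [norm_mul, Complex.norm_real, Real.norm_eq_abs, abs_of_pos hP0, hPμ]

end

end Pool.Agent.V8H52.NH
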