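import Mathlib

/-!
# Linear algebra: eigenvalues of factors; localised fields
-/

set_option autoImplicit false

open Set Filter Metric
open scoped Topology ContDiff

universe u

namespace Pool.Agent.V8H52.NH

section lin

open Polynomial

variable {W E : Type*} [AddCommGroup W] [Module ℝ W] [FiniteDimensional ℝ W] [AddCommGroup E]
  [Module ℝ E] [FiniteDimensional ℝ E]

/-- `μ` is an eigenvalue (in `ℂ`) of the real endomorphism `A`. -/
def Eig (A : E →ₗ[ℝ] E) (μ : ℂ) : Prop := (A.charpoly.map (algebraMap ℝ ℂ)).IsRoot μ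

theorem eig_iff (A : E →ₗ[ℝ] E) (μ : ℂ) :
    Eig A μ ↔ μ ∈ spectrum ℂ ((LinearMap.toMatrix (Module.finBasis ℝ E)
      (Module.finBasis ℝ E) A).map (algebraMap ℝ ℂ)) := by
  rw [Matrix.mem_spectrum_iff_isRoot_charpoly, Matrix.charpoly_map, LinearMap.charpoly_toMatrix]
  rfl

theorem eig_of_aeval (A : E →ₗ[ℝ] E) (p : ℝ[X]) (hp : aeval A p = 0) {μ : ℂ} (hμ : Eig A μ) :
    (p.map (algebraMap ℝ ℂ)).IsRoot μ := by
  classical
  rw [eig_iff] at hμ
  set M := LinearMap.toMatrix (Module.finBasis ℝ E) (Module.finBasis ℝ E) A with hM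
  have h3 := spectrum.subset_polynomial_aeval (M.map (algebraMap ℝ ℂ)) (p.map (algebraMap ℝ ℂ))
    ⟨μ, hμ, rfl⟩
  have h4 : aeval (M.map (algebraMap ℝ ℂ)) (p.map (algebraMap ℝ ℂ)) = 0 := by
    have h5 : aeval M p = 0 := by
      have h6 : aeval M p = (LinearMap.toMatrixAlgEquiv (Module.finBasis ℝ E)) (aeval A p) := by
        rw [← Polynomial.aeval_algHom_apply]
        rfl
      rw [h6, hp, map_zero]
    have h7 : aeval (M.map (algebraMap ℝ ℂ)) (p.map (algebraMap ℝ ℂ)) =
        (algebraMap ℝ ℂ).mapMatrix (aeval M p) := by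
      rw [Polynomial.aeval_map_algebraMap]
      rw [Polynomial.aeval_def, Polynomial.aeval_def, Polynomial.hom_eval₂]
      have h8 : algebraMap ℝ (Matrix (Fin (Module.finrank ℝ E)) (Fin (Module.finrank ℝ E)) ℂ) =
          (algebraMap ℝ ℂ).mapMatrix.comp
            (algebraMap ℝ (Matrix (Fin (Module.finrank ℝ E)) (Fin (Module.finrank ℝ E)) ℝ)) := by
        ext a i j
        by_cases hij : i = j
        · subst hij
          simp [Matrix.algebraMap_matrix_apply]
        · simp [Matrix.algebraMap_matrix_apply, hij]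
      rw [h8]
      rfl
    rw [h7, h5, map_zero]
  rw [h4] at h3
  have h8 : Nontrivial (Matrix (Fin (Module.finrank ℝ E)) (Fin (Module.finrank ℝ E)) ℂ) := by
    by_contra h
    rw [not_nontrivial_iff_subsingleton] at h
    have h9 := spectrum.of_subsingleton (R := ℂ) (M.map (algebraMap ℝ ℂ))
    rw [h9] at hμ
    exact hμ
  rw [spectrum.zero_eq] at h3
  exact h3

theorem eig_of_factor (D : W →ₗ[ℝ] W) (A : E →ₗ[ℝ] E) (l : W →ₗ[ℝ] E)
    (hl : Function.Surjective l) (h : ∀ w, l (D w) = A (l w)) {μ : ℂ} (hμ : Eig A μ) :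
    Eig D μ := by
  have h1 : ∀ p : ℝ[X], ∀ w, l (aeval D p w) = aeval A p (l w) := by
    intro p
    induction p using Polynomial.induction_on' with
    | add p q hp hq =>
      intro w
      simp only [map_add, LinearMap.add_apply, hp w, hq w]
    | monomial k a =>
      intro w
      rw [aeval_monomial, aeval_monomial]
      have h2 : ∀ k : ℕ, ∀ w, l ((D ^ k) w) = (A ^ k) (l w) := by
        intro k
        induction k with
        | zero => intro w; rfl
        | succ k ih =>
          intro w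
          rw [pow_succ, pow_succ]
          show l ((D ^ k) (D w)) = (A ^ k) (A (l w))
          rw [ih, h]
      show l ((algebraMap ℝ (Module.End ℝ W) a) ((D ^ k) w)) =
        (algebraMap ℝ (Module.End ℝ E) a) ((A ^ k) (l w))
      rw [Module.algebraMap_end_apply, Module.algebraMap_end_apply, map_smul, h2]
  have h2 : aeval A D.charpoly = 0 := by
    ext e
    obtain ⟨w, rfl⟩ := hl e
    rw [← h1, LinearMap.aeval_self_charpoly]
    simp
  exact eig_of_aeval A _ h2 hμ

theorem eig_smul {A : E →ₗ[ℝ] E} {μ : ℂ} (hμ : Eig A μ) {c : ℝ} (hc : c ≠ 0) :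
    Eig (c • A) ((c : ℂ) * μ) := by
  classical
  rw [eig_iff] at hμ ⊢
  set M := LinearMap.toMatrix (Module.finBasis ℝ E) (Module.finBasis ℝ E) A with hM
  have h1 : (LinearMap.toMatrix (Module.finBasis ℝ E) (Module.finBasis ℝ E) (c • A)).map
      (algebraMap ℝ ℂ) = (c : ℂ) • M.map (algebraMap ℝ ℂ) := by
    rw [map_smul]
    ext i j
    simp [hM]
  rw [h1]
  have h2 := spectrum.smul_mem_smul_iff (a := M.map (algebraMap ℝ ℂ)) (s := μ)
    (r := Units.mk0 (c : ℂ) (by exact_mod_cast hc))
  exact h2.2 hμ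

theorem eig_ne_zero {A : E →ₗ[ℝ] E} (hA : Function.Surjective A) {μ : ℂ} (hμ : Eig A μ) :
    μ ≠ 0 := by
  classical
  rintro rfl
  have h1 : A.charpoly.eval 0 = 0 := by
    have h2 : (A.charpoly.map (algebraMap ℝ ℂ)).eval 0 = 0 := hμ
    rw [Polynomial.eval_map, Polynomial.eval₂_at_zero] at h2
    have h3 : A.charpoly.coeff 0 = 0 := by simpa using h2
    rwa [Polynomial.coeff_zero_eq_eval_zero] at h3
  have h4 : LinearMap.det A = 0 := by
    have h5 := LinearMap.det_eq_sign_charpoly_coeff A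
    rw [h5, Polynomial.coeff_zero_eq_eval_zero, h1, mul_zero]
  have h6 : IsUnit A := by
    rw [Module.End.isUnit_iff]
    exact ⟨LinearMap.injective_iff_surjective.2 hA, hA⟩
  have h7 := LinearMap.isUnit_det A h6
  rw [h4] at h7
  exact not_isUnit_zero h7

end lin

end Pool.Agent.V8H52.NH
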