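import Pool.Agent.V8H52.NH.Bump
import Pool.Agent.Y675.CO.CI

/-!
# Scaling the derivative along a separated orbit segment
-/

set_option autoImplicit false
set_option linter.unusedSectionVars false

open scoped Manifold ContDiff Topology
open Filter Set Metric

universe u

namespace Pool.Agent.V8H52.NH

open Pool.Agent.H718R2.G Pool.Agent.W564.SC Pool.Agent.R773.FC Pool.Agent.Y368.CL
  Pool.Agent.V8H52.OS

section

variable {n : ℕ} {N : Type u} [MetricSpace N] [CompactSpace N]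
  [ChartedSpace (V n) N] [IsManifold (𝓡 n) ∞ N]

/-- the derivative of a push at a fixed point -/
theorem push_scale {r : ℕ∞} (hr : 1 ≤ r) {χ : OpenPartialHomeomorph N (V n)} {z : N}
    (hχ : GoodChart n N χ z) {u : V n → V n} {Θ : DiffM n N r} (hΘ : IsPush n N r χ u Θ) {y : N}
    (hy : y ∈ χ.source) {s : ℝ} (h0 : u (χ y) = 0)
    (hd : HasFDerivAt u (s • ContinuousLinearMap.id ℝ (V n)) (χ y)) :
    Θ y = y ∧ mfderiv (𝓡 n) (𝓡 n) Θ y = (1 + s) • ContinuousLinearMap.id ℝ (V n) := by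
  have hfix : Θ y = y := by
    obtain ⟨h3, h4⟩ := hΘ.1 _ hy
    rw [h0, add_zero] at h4
    exact χ.injOn h3 hy h4
  refine ⟨hfix, ?_⟩
  have ht : χ y ∈ χ.target := χ.map_source hy
  have hχd : MDifferentiableAt (𝓡 n) 𝓘(ℝ, V n) χ y :=
    ((contMDiffOn_of_mem_maximalAtlas hχ.mem).contMDiffAt
      (χ.open_source.mem_nhds hy)).mdifferentiableAt (by simp)
  have hsm : MDifferentiableAt 𝓘(ℝ, V n) (𝓡 n) χ.symm (χ y) :=
    ((contMDiffOn_symm_of_mem_maximalAtlas hχ.mem).contMDiffAt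
      (χ.open_target.mem_nhds ht)).mdifferentiableAt (by simp)
  have hΘd : MDifferentiableAt (𝓡 n) (𝓡 n) Θ y :=
    (Pool.Agent.Y675.CO.CI.smooth1 hr Θ).mdifferentiableAt one_ne_zero
  obtain ⟨A, hA⟩ : ∃ A : V n →L[ℝ] V n, A = mfderiv (𝓡 n) 𝓘(ℝ, V n) χ y := ⟨_, rfl⟩
  obtain ⟨B, hB⟩ : ∃ B : V n →L[ℝ] V n, B = mfderiv 𝓘(ℝ, V n) (𝓡 n) χ.symm (χ y) := ⟨_, rfl⟩
  obtain ⟨T, hT⟩ : ∃ T : V n →L[ℝ] V n, T = mfderiv (𝓡 n) (𝓡 n) Θ y := ⟨_, rfl⟩
  have hBA : B.comp A = ContinuousLinearMap.id ℝ (V n) := by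
    have e1 : χ.symm ∘ χ =ᶠ[𝓝 y] id := by
      filter_upwards [χ.open_source.mem_nhds hy] with y hy
      exact χ.left_inv hy
    have h1 : mfderiv (𝓡 n) (𝓡 n) (χ.symm ∘ χ) y = ContinuousLinearMap.id ℝ (V n) := by
      rw [e1.mfderiv_eq]
      exact mfderiv_id
    rw [mfderiv_comp y hsm hχd] at h1
    rw [hA, hB]
    exact h1
  -- `χ ∘ Θ = (id + u) ∘ χ` near `y`
  have e2 : χ ∘ Θ =ᶠ[𝓝 y] (fun v => v + u v) ∘ χ := by
    filter_upwards [χ.open_source.mem_nhds hy] with y hy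
    exact (hΘ.1 y hy).2
  have hL : HasMFDerivAt (𝓡 n) 𝓘(ℝ, V n) (χ ∘ Θ) y (A.comp T) := by
    rw [hT]
    refine HasMFDerivAt.comp _ ?_ hΘd.hasMFDerivAt
    rw [hfix, hA]
    exact hχd.hasMFDerivAt
  have hRd : HasFDerivAt (fun v => v + u v)
      (ContinuousLinearMap.id ℝ (V n) + s • ContinuousLinearMap.id ℝ (V n)) (χ y) :=
    (hasFDerivAt_id (χ y)).add hd
  have hR : HasMFDerivAt (𝓡 n) 𝓘(ℝ, V n) ((fun v => v + u v) ∘ χ) y
      ((ContinuousLinearMap.id ℝ (V n) + s • ContinuousLinearMap.id ℝ (V n)).comp A) := by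
    refine HasMFDerivAt.comp _ hRd.hasMFDerivAt ?_
    rw [hA]
    exact hχd.hasMFDerivAt
  have h1 : A.comp T = (ContinuousLinearMap.id ℝ (V n) + s • ContinuousLinearMap.id ℝ (V n)).comp A := by
    have h2 := hL.mfderiv
    rw [e2.mfderiv_eq, hR.mfderiv] at h2
    exact h2.symm
  have h3 : T = (1 + s) • ContinuousLinearMap.id ℝ (V n) := by
    calc T = (B.comp A).comp T := by rw [hBA]; rfl
      _ = B.comp (A.comp T) := rfl
      _ = B.comp ((ContinuousLinearMap.id ℝ (V n) + s • ContinuousLinearMap.id ℝ (V n)).comp A) := by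
          rw [h1]
      _ = (1 + s) • B.comp A := by
          ext1 v
          show B (A v + s • A v) = (1 + s) • B (A v)
          rw [map_add, map_smul, add_smul, one_smul]
      _ = _ := by rw [hBA]
  rw [← hT]
  exact h3

theorem realize_der {r : ℕ∞} (hr : 1 ≤ r) (hL : ChartLip n N) (G : DiffM n N r)
    (U : Set (DiffM n N r)) (hU : IsOpen[strongTop n N r] U) (hGU : G ∈ U) :
    ∃ k : ℕ, 1 ≤ k ∧ (k : ℕ∞) ≤ r ∧ ∃ κ : ℝ, 0 < κ ∧ κ ≤ 1 / 2 ∧ ∀ (m : ℕ) (x : ℕ → N) (ρ : ℕ → ℝ),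
      (∀ i < m, 0 < ρ i ∧ ρ i ≤ 1 ∧ ∀ j < m, j ≠ i → ρ i ≤ dist (x j) (x i)) →
      ∀ t : ℝ, |t| ≤ 1 → ∃ G' ∈ U, ∀ i < m, ∀ y, G y = x i → G' y = G y ∧
        mfderiv (𝓡 n) (𝓡 n) G' y =
          (1 + t * (κ * ρ i ^ (k - 1))) • (mfderiv (𝓡 n) (𝓡 n) G y : V n →L[ℝ] V n) := by
  classical
  obtain ⟨V', hV', hGV', hV'U, hgerm⟩ := germ_nbhd G U hU hGU
  rcases isEmpty_or_nonempty N with hN | hN
  · exact ⟨1, le_rfl, hr, 1 / 2, by norm_num, le_rfl, fun m x => (hN.false (x 0)).elim⟩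
  -- the charts
  have hgc : ∀ z : N, ∃ χ : OpenPartialHomeomorph N (V n), GoodChart n N χ z :=
    fun z => Pool.Agent.W699.SC.gc n N z
  choose χ hχ using hgc
  have hLip : ∀ z : N, ∃ L : ℝ, 1 ≤ L ∧ ∀ y ∈ (χ z).source, ∀ y' ∈ (χ z).source,
      ‖χ z y‖ ≤ 1 / 2 → ‖χ z y'‖ ≤ 1 / 2 → dist y y' ≤ L * ‖χ z y - χ z y'‖ ∧
        ‖χ z y - χ z y'‖ ≤ L * dist y y' := by
    intro z
    obtain ⟨L, hL0, h⟩ := hL (χ z) z (hχ z)
    refine ⟨max L 1, le_max_right _ _, fun y hy y' hy' h1 h2 => ⟨?_, ?_⟩⟩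
    · exact (h y hy y' hy' h1 h2).1.trans
        (mul_le_mul_of_nonneg_right (le_max_left _ _) (norm_nonneg _))
    · exact (h y hy y' hy' h1 h2).2.trans
        (mul_le_mul_of_nonneg_right (le_max_left _ _) dist_nonneg)
  choose L hL1 hL2 using hLip
  have hMz : ∀ z : N, _ := fun z => t_NBHD n N r hr ℝ (fun _ => G) (isFam_const G) (χ z) z (hχ z)
    V' hV' hGV'
  choose k₀ hk1 hkr κ₀ hκ₀ hmul using hMz
  have hBz : ∀ z : N, _ := fun z => bump1 n (k₀ z) (hk1 z)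
  choose C hC hbump using hBz
  -- the cover
  let W : N → Set N := fun z => {y | y ∈ (χ z).source ∧ ‖χ z y‖ < 1 / 8}
  have hW : ∀ z, W z ∈ 𝓝 z := by
    intro z
    have h1 : ∀ᶠ y in 𝓝 z, y ∈ (χ z).source := (χ z).open_source.mem_nhds (hχ z).src
    have h2 : ∀ᶠ y in 𝓝 z, ‖χ z y‖ < 1 / 8 := by
      have hc : ContinuousAt (fun y => ‖χ z y‖) z := ((χ z).continuousAt (hχ z).src).norm
      refine hc.eventually (gt_mem_nhds ?_)
      show ‖χ z z‖ < _
      rw [(hχ z).zero, norm_zero]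
      norm_num
    exact h1.and h2
  obtain ⟨Z, hZ⟩ := CompactSpace.elim_nhds_subcover W hW
  have hcov : ∀ y : N, ∃ z ∈ Z, y ∈ W z := by
    intro y
    have : y ∈ ⋃ x ∈ Z, W x := by rw [hZ]; trivial
    simpa using this
  choose az haZ haW using hcov
  have hZne : Z.Nonempty := ⟨az hN.some, haZ _⟩
  obtain ⟨zk, hzk, hkmax⟩ := Finset.exists_max_image Z k₀ hZne
  have hL0 : ∀ z, 0 < L z := fun z => lt_of_lt_of_le one_pos (hL1 z)
  -- the constant
  let c : N → ℝ := fun z => min (κ₀ z) (1 / 2)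
  have hc0 : ∀ z, 0 < c z := fun z => lt_min (hκ₀ z) (by norm_num)
  let f : N → ℝ := fun z => min (1 / 2) (c z / (C z * (4 * L z) ^ (k₀ z - 1)))
  have hf0 : ∀ z, 0 < f z := by
    intro z
    have := hL0 z
    have := hC z
    have := hc0 z
    exact lt_min (by norm_num) (by positivity)
  obtain ⟨zf, hzf, hfmin⟩ := Finset.exists_min_image Z f hZne
  refine ⟨k₀ zk, hk1 zk, hkr zk, f zf, hf0 zf, min_le_left _ _, ?_⟩
  obtain ⟨κ, hκ⟩ : ∃ κ, κ = f zf := ⟨_, rfl⟩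
  obtain ⟨k, hk⟩ : ∃ k, k = k₀ zk := ⟨_, rfl⟩
  have hkone : 1 ≤ k := by rw [hk]; exact hk1 zk
  rw [← hκ, ← hk]
  rw [← hk] at hkmax
  have hκ0 : 0 < κ := by rw [hκ]; exact hf0 zf
  have hκZ : ∀ z ∈ Z, κ ≤ f z := fun z hz => by rw [hκ]; exact hfmin z hz
  have hκC : ∀ z ∈ Z, κ * (C z * (4 * L z) ^ (k₀ z - 1)) ≤ c z := fun z hz => by
    have h1 := (hκZ z hz).trans (min_le_right _ _)
    have := hL0 z
    have := hC z
    rwa [le_div_iff₀ (by positivity)] at h1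
  intro m x ρ hρ t htt
  have hsep : ∀ i < m, ∀ j < m, i ≠ j → ρ i ≤ dist (x i) (x j) ∧ ρ j ≤ dist (x i) (x j) := by
    intro i hi j hj hij
    have h1 := (hρ i hi).2.2 j hj (Ne.symm hij)
    have h2 := (hρ j hj).2.2 i hi hij
    rw [dist_comm] at h1
    exact ⟨h1, h2⟩
  -- the radii
  obtain ⟨R, hR⟩ : ∃ R : ℕ → N → ℝ, ∀ i z, R i z = ρ i / (4 * L z) := ⟨_, fun _ _ => rfl⟩
  have hR0 : ∀ i < m, ∀ z, 0 < R i z := by
    intro i hi z
    rw [hR]
    have := hL0 z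
    have := (hρ i hi).1
    positivity
  have hR4 : ∀ i < m, ∀ z, R i z ≤ 1 / 4 := by
    intro i hi z
    rw [hR, div_le_iff₀ (by have := hL0 z; positivity)]
    have := hL1 z
    have := (hρ i hi).2.1
    linarith
  -- the bumps
  have hb : ∀ i, ∃ b : V n → V n, i < m → ContDiff ℝ ∞ b ∧
      (∀ j ≤ k₀ (az (x i)), ∀ v, ‖iteratedFDeriv ℝ j b v‖ ≤ c (az (x i))) ∧
      (∀ v, R i (az (x i)) ≤ ‖v‖ → b v = 0) ∧ b 0 = 0 ∧
      HasFDerivAt b ((t * (κ * ρ i ^ (k - 1))) • ContinuousLinearMap.id ℝ (V n)) 0 := by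
    intro i
    by_cases hi : i < m
    · obtain ⟨z, hz⟩ : ∃ z, z = az (x i) := ⟨_, rfl⟩
      have hzZ : z ∈ Z := by rw [hz]; exact haZ _
      rw [← hz]
      obtain ⟨b, b1, b2, b3, b4, b5⟩ := hbump z (R i z) (hR0 i hi z) (by linarith [hR4 i hi z])
        (t * (κ * ρ i ^ (k - 1)))
      refine ⟨b, fun _ => ⟨b1, fun j hj v => (b2 j hj v).trans ?_, b3, b4, b5⟩⟩
      obtain ⟨h4, h5, -⟩ := hρ i hi
      have h7 : ρ i ^ (k - 1) ≤ ρ i ^ (k₀ z - 1) :=
        pow_le_pow_of_le_one h4.le h5 (Nat.sub_le_sub_right (hkmax z hzZ) 1)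
      have h8 : 0 < R i z ^ (k₀ z - 1) := pow_pos (hR0 i hi z) _
      have hLz := hL0 z
      have h9 : ρ i ^ (k₀ z - 1) = (4 * L z) ^ (k₀ z - 1) * R i z ^ (k₀ z - 1) := by
        rw [← mul_pow, hR]
        congr 1
        field_simp
      have hρk : 0 ≤ ρ i ^ (k - 1) := by positivity
      have h10 : |t * (κ * ρ i ^ (k - 1))| / R i z ^ (k₀ z - 1) ≤ κ * (4 * L z) ^ (k₀ z - 1) := by
        rw [div_le_iff₀ h8, abs_mul, abs_of_nonneg (by positivity : 0 ≤ κ * ρ i ^ (k - 1))]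
        calc |t| * (κ * ρ i ^ (k - 1)) ≤ 1 * (κ * ρ i ^ (k - 1)) :=
              mul_le_mul_of_nonneg_right htt (by positivity)
          _ = κ * ρ i ^ (k - 1) := one_mul _
          _ ≤ κ * ρ i ^ (k₀ z - 1) := mul_le_mul_of_nonneg_left h7 hκ0.le
          _ = κ * (4 * L z) ^ (k₀ z - 1) * R i z ^ (k₀ z - 1) := by rw [h9]; ring
      calc C z * (|t * (κ * ρ i ^ (k - 1))| / R i z ^ (k₀ z - 1)) ≤
            C z * (κ * (4 * L z) ^ (k₀ z - 1)) := mul_le_mul_of_nonneg_left h10 (hC z).le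
        _ = κ * (C z * (4 * L z) ^ (k₀ z - 1)) := by ring
        _ ≤ c z := hκC z hzZ
    · exact ⟨0, fun h => absurd h hi⟩
  choose b hb using hb
  -- the fields
  obtain ⟨Jz, hJz⟩ : ∃ Jz : N → Finset ℕ, ∀ z, Jz z = (Finset.range m).filter
    (fun i => az (x i) = z) := ⟨_, fun _ => rfl⟩
  have hJzm : ∀ z, ∀ i ∈ Jz z, i < m ∧ az (x i) = z := by
    intro z i hi
    rw [hJz, Finset.mem_filter, Finset.mem_range] at hi
    exact hi
  obtain ⟨u, hu⟩ : ∃ u : N → V n → V n, ∀ z, u z = fun v => ∑ i ∈ Jz z, b i (v - χ z (x i)) :=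
    ⟨_, fun _ => rfl⟩
  -- separation in the charts
  have hsepc : ∀ z, ∀ i ∈ Jz z, ∀ j ∈ Jz z, i ≠ j → R i z + R j z < ‖χ z (x i) - χ z (x j)‖ := by
    intro z i hi j hj hij
    obtain ⟨hi1, hi2⟩ := hJzm z i hi
    obtain ⟨hj1, hj2⟩ := hJzm z j hj
    have a1 := haW (x i)
    have a2 := haW (x j)
    rw [hi2] at a1
    rw [hj2] at a2
    have h1 := (hL2 z _ a1.1 _ a2.1 (by linarith [a1.2]) (by linarith [a2.2])).1
    obtain ⟨h2, h3⟩ := hsep i hi1 j hj1 hij
    have h4 := hL0 z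
    have h5 := (hρ i hi1).1
    have h6 := (hρ j hj1).1
    rw [hR, hR, ← add_div, div_lt_iff₀ (by positivity)]
    nlinarith
  have hsm : ∀ z ∈ Z, Small n (k₀ z) (c z) (u z) := by
    intro z hz
    rw [hu z]
    have hLz := hL0 z
    refine small_sum (hc0 z).le (Jz z) (fun i v => b i (v - χ z (x i)))
      (fun i => χ z (x i)) (fun i => R i z) ?_ ?_ ?_ (hsepc z) ?_
    · intro i hi
      exact (hb i (hJzm z i hi).1).1.comp (contDiff_id.sub contDiff_const)
    · intro i hi j hj v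
      obtain ⟨hi1, hi2⟩ := hJzm z i hi
      have h1 : iteratedFDeriv ℝ j (fun v => b i (v - χ z (x i))) v =
          iteratedFDeriv ℝ j (b i) (v - χ z (x i)) := by
        rw [iteratedFDeriv_comp_sub]
      rw [h1]
      have h2 := (hb i hi1).2.1
      rw [hi2] at h2
      exact h2 j hj _
    · intro i hi v hv
      obtain ⟨hi1, hi2⟩ := hJzm z i hi
      have h2 := (hb i hi1).2.2.1
      rw [hi2] at h2
      exact h2 _ hv
    · intro i hi
      obtain ⟨hi1, hi2⟩ := hJzm z i hi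
      have a1 := (haW (x i)).2
      rw [hi2] at a1
      have h3 := hR4 i hi1 z
      show ‖χ z (x i)‖ + R i z ≤ 1 / 2
      linarith
  have hΘ : ∀ z, ∃ Θ : DiffM n N r, z ∈ Z → IsPush n N r (χ z) (u z) Θ := by
    intro z
    by_cases hz : z ∈ Z
    · obtain ⟨Θ, h⟩ := Pool.Agent.W428.SC.push n N r (χ z) z (hχ z) (u z)
        (small_mono (hsm z hz) (hk1 z) (min_le_right _ _))
      exact ⟨Θ, fun _ => h⟩
    · exact ⟨G, fun h => absurd h hz⟩
  choose Θ hΘ using hΘ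
  obtain ⟨S, hS⟩ : ∃ S : N → Set N, ∀ z, S z = ⋃ i ∈ Jz z, closedBall (x i) (ρ i / 4) :=
    ⟨_, fun _ => rfl⟩
  have hSmem : ∀ z y, y ∈ S z → ∃ i ∈ Jz z, dist y (x i) ≤ ρ i / 4 := by
    intro z y hy
    rw [hS z] at hy
    obtain ⟨i, hi, h⟩ := mem_iUnion₂.1 hy
    exact ⟨i, hi, mem_closedBall.1 h⟩
  have hSmem' : ∀ z y, ∀ i ∈ Jz z, dist y (x i) ≤ ρ i / 4 → y ∈ S z := by
    intro z y i hi h
    rw [hS z]
    exact mem_iUnion₂.2 ⟨i, hi, mem_closedBall.2 h⟩
  obtain ⟨Θ', hΘ1, hΘ2⟩ := glue Z Θ S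
    (fun z _ => by
      rw [hS z]
      exact Set.Finite.isClosed_biUnion (Finset.finite_toSet _) fun i _ => isClosed_closedBall)
    (by
      intro z hz z' hz' hne
      rw [Set.disjoint_left]
      intro y hy hy'
      obtain ⟨i, hi, h1⟩ := hSmem z y hy
      obtain ⟨j, hj, h2⟩ := hSmem z' y hy'
      obtain ⟨hi1, hi2⟩ := hJzm z i hi
      obtain ⟨hj1, hj2⟩ := hJzm z' j hj
      have hij : i ≠ j := by
        rintro rfl
        exact hne (hi2.symm.trans hj2)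
      obtain ⟨h3, h4⟩ := hsep i hi1 j hj1 hij
      have h5 := dist_triangle_left (x i) (x j) y
      have h6 := (hρ i hi1).1
      have h7 := (hρ j hj1).1
      linarith)
    (by
      intro z hz y hy
      obtain ⟨p1, p2⟩ := hΘ z hz
      by_cases hys : y ∈ (χ z).source
      · obtain ⟨q1, q2⟩ := p1 y hys
        have h0 : u z (χ z y) = 0 := by
          rw [hu z]
          refine Finset.sum_eq_zero fun i hi => ?_
          obtain ⟨hi1, hi2⟩ := hJzm z i hi
          have h2 := (hb i hi1).2.2.1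
          rw [hi2] at h2
          refine h2 _ ?_
          by_contra hcon
          push Not at hcon
          apply hy
          refine hSmem' z y i hi ?_
          have a1 := haW (x i)
          rw [hi2] at a1
          have hLz := hL0 z
          have h3 := hR4 i hi1 z
          have h4 : ‖χ z y‖ ≤ 1 / 2 := by
            have h5 := norm_sub_norm_le (χ z y) (χ z (x i))
            have h6 := a1.2
            linarith
          have h7 := (hL2 z y hys _ a1.1 h4 (by linarith [a1.2])).1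
          have h8 : L z * R i z = ρ i / 4 := by
            rw [hR]
            field_simp
          have h9 := mul_le_mul_of_nonneg_left hcon.le hLz.le
          linarith
        rw [h0, add_zero] at q2
        exact (χ z).injOn q1 hys q2
      · exact p2 y hys)
  refine ⟨G.trans Θ', hV'U (hgerm _ fun y => ?_), fun i hi y hyx => ?_⟩
  · by_cases hex : ∃ z ∈ Z, G y ∈ S z
    · obtain ⟨z, hz, hyS⟩ := hex
      refine ⟨G.trans (Θ z), hmul z 0 (u z) (Θ z) (by rw [norm_zero]; exact hκ₀ z)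
        (small_mono (hsm z hz) le_rfl (min_le_left _ _)) (hΘ z hz), ?_⟩
      have h1 := G.continuous.continuousAt.eventually (hΘ1 z hz (G y) hyS)
      filter_upwards [h1] with y' hy'
      exact hy'
    · push Not at hex
      refine ⟨G, hGV', ?_⟩
      have h1 := G.continuous.continuousAt.eventually (hΘ2 (G y) hex)
      filter_upwards [h1] with y' hy'
      exact hy'
  · obtain ⟨z, hz⟩ : ∃ z, z = az (x i) := ⟨_, rfl⟩
    have hzZ : z ∈ Z := by rw [hz]; exact haZ _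
    have hiz : i ∈ Jz z := by
      rw [hJz, Finset.mem_filter, Finset.mem_range]
      exact ⟨hi, hz.symm⟩
    have hyS : x i ∈ S z := by
      refine hSmem' z _ i hiz ?_
      rw [dist_self]
      have := (hρ i hi).1
      linarith
    have hev : (Θ' : N → N) =ᶠ[𝓝 (x i)] Θ z := hΘ1 z hzZ _ hyS
    have a1 := haW (x i)
    rw [← hz] at a1
    have hbi := hb i hi
    rw [← hz] at hbi
    obtain ⟨b1, b2, b3, b4, b5⟩ := hbi
    -- near `x i` only one bump is nonzero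
    have hloc : u z =ᶠ[𝓝 (χ z (x i))] fun v => b i (v - χ z (x i)) := by
      have h2 : ∀ᶠ v in 𝓝 (χ z (x i)), ∀ j ∈ Jz z, j ≠ i → b j (v - χ z (x j)) = 0 := by
        rw [Finset.eventually_all]
        intro j hj
        by_cases hne : j = i
        · exact Eventually.of_forall fun _ h => absurd hne h
        · obtain ⟨hj1, hj2⟩ := hJzm z j hj
          have h3 := hsepc z i hiz j hj (Ne.symm hne)
          have h4 := hR0 i hi z
          have hcont : ContinuousAt (fun v => ‖v - χ z (x j)‖) (χ z (x i)) := by fun_prop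
          filter_upwards [hcont.eventually (lt_mem_nhds (show R j z < _ by linarith))] with v hv _
          have e2 := (hb j hj1).2.2.1
          rw [hj2] at e2
          exact e2 _ hv.le
      filter_upwards [h2] with v hv
      rw [hu z]
      exact Finset.sum_eq_single_of_mem i hiz hv
    have hu0 : u z (χ z (x i)) = 0 := by
      rw [hloc.eq_of_nhds]
      show b i (χ z (x i) - χ z (x i)) = 0
      rw [sub_self, b4]
    have hud : HasFDerivAt (u z) ((t * (κ * ρ i ^ (k - 1))) • ContinuousLinearMap.id ℝ (V n))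
        (χ z (x i)) := by
      refine HasFDerivAt.congr_of_eventuallyEq ?_ hloc
      have h3 : HasFDerivAt (fun v => v - χ z (x i)) (ContinuousLinearMap.id ℝ (V n))
          (χ z (x i)) := (hasFDerivAt_id (χ z (x i))).sub_const _
      have h4 : HasFDerivAt (b i ∘ fun v => v - χ z (x i))
          (((t * (κ * ρ i ^ (k - 1))) • ContinuousLinearMap.id ℝ (V n)).comp
            (ContinuousLinearMap.id ℝ (V n))) (χ z (x i)) := by
        refine HasFDerivAt.comp _ ?_ h3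
        rw [sub_self]
        exact b5
      exact h4
    obtain ⟨e1, e2⟩ := push_scale hr (hχ z) (hΘ z hzZ) a1.1 hu0 hud
    have hΘ'd : MDifferentiableAt (𝓡 n) (𝓡 n) Θ' (G y) :=
      (Pool.Agent.Y675.CO.CI.smooth1 hr Θ').mdifferentiableAt one_ne_zero
    have hGd : MDifferentiableAt (𝓡 n) (𝓡 n) G y :=
      (Pool.Agent.Y675.CO.CI.smooth1 hr G).mdifferentiableAt one_ne_zero
    refine ⟨?_, ?_⟩
    · show Θ' (G y) = G y
      rw [hyx, hev.eq_of_nhds, e1]
    · have e3 : (G.trans Θ' : N → N) = Θ' ∘ G := rfl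
      rw [e3, mfderiv_comp y hΘ'd hGd]
      have e4 : mfderiv (𝓡 n) (𝓡 n) Θ' (G y) =
          (1 + t * (κ * ρ i ^ (k - 1))) • ContinuousLinearMap.id ℝ (V n) := by
        rw [hyx, hev.mfderiv_eq]
        exact e2
      rw [e4]
      rfl

end

end Pool.Agent.V8H52.NH
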