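import Pool.Agent.V8H52.NH.MDefs
import Pool.Agent.V8H52.NH.Sep
import Pool.Agent.V8H52.NH.Lin
import Pool.Agent.V8H52.OS.Glob
import Pool.Agent.Y504.CO.Gen

/-!
# The gap for the eigenvalues at separated periodic orbits
-/

set_option autoImplicit false
set_option linter.unusedSectionVars false

open scoped Manifold ContDiff Topology
open Filter Set Metric

universe u

namespace Pool.Agent.V8H52.NH

open Pool.Agent.H718R2.G Pool.Agent.TH80.OMS Pool.Agent.Y504.CO Pool.Agent.Y368.CL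

section

variable {n : ℕ} {N : Type u} [TopologicalSpace N] [T2Space N] [CompactSpace N]
  [ChartedSpace (V n) N] [IsManifold (𝓡 n) ∞ N]

theorem eig_hyp {r : ℕ∞} (hr : 1 ≤ r) (G : DiffM n N r) {p : N} {m : ℕ} (hm : 1 ≤ m)
    (hp : G^[m] p = p) (hyp : IsHyperbolicPer n G p) {M : V n →L[ℝ] V n}
    (hM : M = mfderiv (𝓡 n) (𝓡 n) G^[m] p) {μ : ℂ} (hμ : Eig (M : V n →ₗ[ℝ] V n) μ) :
    ‖μ‖ ≠ 1 := by
  set ψ := chartAt (V n) p with hψ
  have hψm : ψ ∈ IsManifold.maximalAtlas (𝓡 n) ∞ N := IsManifold.chart_mem_maximalAtlas p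
  have hpψ : p ∈ ψ.source := mem_chart_source (V n) p
  have ht : ψ p ∈ ψ.target := ψ.map_source hpψ
  have hsp : ψ.symm (ψ p) = p := ψ.left_inv hpψ
  obtain ⟨D, hD, hmod⟩ := hyp.2 m hm hp ψ hψm hpψ
  refine hmod μ ?_
  have hsm : MDifferentiableAt 𝓘(ℝ, V n) (𝓡 n) ψ.symm (ψ p) :=
    ((contMDiffOn_symm_of_mem_maximalAtlas hψm).contMDiffAt
      (ψ.open_target.mem_nhds ht)).mdifferentiableAt (by simp)
  have hψd : MDifferentiableAt (𝓡 n) 𝓘(ℝ, V n) ψ p :=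
    ((contMDiffOn_of_mem_maximalAtlas hψm).contMDiffAt
      (ψ.open_source.mem_nhds hpψ)).mdifferentiableAt (by simp)
  have hGm : MDifferentiableAt (𝓡 n) (𝓡 n) G^[m] p :=
    (Pool.Agent.Y675.CO.CI.smooth_iter hr G m).mdifferentiableAt one_ne_zero
  obtain ⟨A, hA⟩ : ∃ A : V n →L[ℝ] V n, A = mfderiv (𝓡 n) 𝓘(ℝ, V n) ψ p := ⟨_, rfl⟩
  obtain ⟨B, hB⟩ : ∃ B : V n →L[ℝ] V n, B = mfderiv 𝓘(ℝ, V n) (𝓡 n) ψ.symm (ψ p) := ⟨_, rfl⟩
  have hBA : B.comp A = ContinuousLinearMap.id ℝ (V n) := by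
    have e1 : ψ.symm ∘ ψ =ᶠ[𝓝 p] id := by
      filter_upwards [ψ.open_source.mem_nhds hpψ] with y hy
      exact ψ.left_inv hy
    have h1 : mfderiv (𝓡 n) (𝓡 n) (ψ.symm ∘ ψ) p = ContinuousLinearMap.id ℝ (V n) := by
      rw [e1.mfderiv_eq]
      exact mfderiv_id
    rw [mfderiv_comp p hsm hψd] at h1
    rw [hA, hB]
    exact h1
  have hDe : D = (A.comp M).comp B := by
    have h1 : HasMFDerivAt 𝓘(ℝ, V n) (𝓡 n) (G^[m] ∘ ψ.symm) (ψ p) (M.comp B) := by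
      rw [hB]
      refine HasMFDerivAt.comp _ ?_ hsm.hasMFDerivAt
      rw [hsp, hM]
      exact hGm.hasMFDerivAt
    have h2 : HasMFDerivAt 𝓘(ℝ, V n) 𝓘(ℝ, V n) (ψ ∘ (G^[m] ∘ ψ.symm)) (ψ p)
        (A.comp (M.comp B)) := by
      refine HasMFDerivAt.comp _ ?_ h1
      have h3 : (G^[m] ∘ ψ.symm) (ψ p) = p := by
        show G^[m] (ψ.symm (ψ p)) = p
        rw [hsp, hp]
      rw [h3, hA]
      exact hψd.hasMFDerivAt
    exact hD.unique h2.hasFDerivAt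
  refine eig_of_factor (D : V n →ₗ[ℝ] V n) (M : V n →ₗ[ℝ] V n) (B : V n →ₗ[ℝ] V n) ?_ ?_ hμ
  · intro v
    exact ⟨A v, DFunLike.congr_fun hBA v⟩
  · intro w
    have h1 : B (A (M (B w))) = M (B w) := DFunLike.congr_fun hBA (M (B w))
    show B (D w) = M (B w)
    rw [hDe]
    exact h1

theorem der_surj {r : ℕ∞} (hr : 1 ≤ r) (F : DiffM n N r) (m : ℕ) (x : N) :
    Function.Surjective (mfderiv (𝓡 n) (𝓡 n) F^[m] x) := by
  have h0 : ∀ x : N, Function.Surjective (mfderiv (𝓡 n) (𝓡 n) F x) := by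
    intro x
    have hF2 : MDifferentiableAt (𝓡 n) (𝓡 n) F (F.symm (F x)) :=
      (Pool.Agent.Y675.CO.CI.smooth1 hr F).mdifferentiableAt one_ne_zero
    have hF3 : MDifferentiableAt (𝓡 n) (𝓡 n) F.symm (F x) :=
      (Pool.Agent.Y675.CO.CI.smooth1 hr F.symm).mdifferentiableAt one_ne_zero
    have e1 : F ∘ F.symm = id := by
      funext y
      exact F.apply_symm_apply y
    have h1 : mfderiv (𝓡 n) (𝓡 n) (F ∘ F.symm) (F x) = ContinuousLinearMap.id ℝ (V n) := by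
      rw [e1]
      exact mfderiv_id
    rw [mfderiv_comp (F x) hF2 hF3] at h1
    intro w
    have h3 := DFunLike.congr_fun h1 w
    have h4 : F.symm (F x) = x := F.symm_apply_apply x
    refine ⟨mfderiv (𝓡 n) (𝓡 n) F.symm (F x) w, ?_⟩
    have h5 : mfderiv (𝓡 n) (𝓡 n) F (F.symm (F x)) (mfderiv (𝓡 n) (𝓡 n) F.symm (F x) w) = w := h3
    rw [h4] at h5
    exact h5
  induction m with
  | zero =>
    intro w
    refine ⟨w, ?_⟩
    have h1 : mfderiv (𝓡 n) (𝓡 n) F^[0] x = ContinuousLinearMap.id ℝ (V n) := mfderiv_id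
    rw [h1]
    rfl
  | succ m ih =>
    have hF1 : MDifferentiableAt (𝓡 n) (𝓡 n) F^[m] x :=
      (Pool.Agent.Y675.CO.CI.smooth_iter hr F m).mdifferentiableAt one_ne_zero
    have hF2 : MDifferentiableAt (𝓡 n) (𝓡 n) F (F^[m] x) :=
      (Pool.Agent.Y675.CO.CI.smooth1 hr F).mdifferentiableAt one_ne_zero
    intro w
    obtain ⟨v, hv⟩ := h0 (F^[m] x) w
    obtain ⟨y, hy⟩ := ih v
    refine ⟨y, ?_⟩
    rw [Function.iterate_succ', mfderiv_comp x hF2 hF1]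
    show mfderiv (𝓡 n) (𝓡 n) F (F^[m] x) (mfderiv (𝓡 n) (𝓡 n) F^[m] x y) = w
    rw [hy, hv]

/-- the derivative of the iterates of a map which scales the derivative along the orbit -/
theorem iter_scale {r : ℕ∞} (hr : 1 ≤ r) (F G : DiffM n N r) {p : N} {m : ℕ} {s : ℕ → ℝ}
    (h : ∀ i < m, G (F^[i] p) = F (F^[i] p) ∧ mfderiv (𝓡 n) (𝓡 n) G (F^[i] p) =
      (1 + s i) • (mfderiv (𝓡 n) (𝓡 n) F (F^[i] p) : V n →L[ℝ] V n)) (j : ℕ) (hj : j ≤ m) :
    G^[j] p = F^[j] p ∧ mfderiv (𝓡 n) (𝓡 n) G^[j] p =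
      (∏ i ∈ Finset.range j, (1 + s i)) • (mfderiv (𝓡 n) (𝓡 n) F^[j] p : V n →L[ℝ] V n) := by
  induction j with
  | zero =>
    refine ⟨rfl, ?_⟩
    rw [Finset.range_zero, Finset.prod_empty, one_smul]
    rfl
  | succ j ih =>
    obtain ⟨h1, h2⟩ := ih (by omega)
    obtain ⟨h3, h4⟩ := h j (by omega)
    have hG1 : MDifferentiableAt (𝓡 n) (𝓡 n) G^[j] p :=
      (Pool.Agent.Y675.CO.CI.smooth_iter hr G j).mdifferentiableAt one_ne_zero
    have hG2 : MDifferentiableAt (𝓡 n) (𝓡 n) G (G^[j] p) :=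
      (Pool.Agent.Y675.CO.CI.smooth1 hr G).mdifferentiableAt one_ne_zero
    have hF1 : MDifferentiableAt (𝓡 n) (𝓡 n) F^[j] p :=
      (Pool.Agent.Y675.CO.CI.smooth_iter hr F j).mdifferentiableAt one_ne_zero
    have hF2 : MDifferentiableAt (𝓡 n) (𝓡 n) F (F^[j] p) :=
      (Pool.Agent.Y675.CO.CI.smooth1 hr F).mdifferentiableAt one_ne_zero
    refine ⟨?_, ?_⟩
    · rw [Function.iterate_succ_apply', Function.iterate_succ_apply', h1, h3]
    · rw [Function.iterate_succ', mfderiv_comp p hG2 hG1, Function.iterate_succ',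
        mfderiv_comp p hF2 hF1, h1, h4, h2, Finset.prod_range_succ]
      obtain ⟨A, hA⟩ : ∃ A : V n →L[ℝ] V n, A = mfderiv (𝓡 n) (𝓡 n) F (F^[j] p) := ⟨_, rfl⟩
      obtain ⟨B, hB⟩ : ∃ B : V n →L[ℝ] V n, B = mfderiv (𝓡 n) (𝓡 n) F^[j] p := ⟨_, rfl⟩
      have h5 : ((1 + s j) • A).comp ((∏ i ∈ Finset.range j, (1 + s i)) • B) =
          ((∏ i ∈ Finset.range j, (1 + s i)) * (1 + s j)) • A.comp B := by
        ext1 v
        show (1 + s j) • A ((∏ i ∈ Finset.range j, (1 + s i)) • B v) =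
          ((∏ i ∈ Finset.range j, (1 + s i)) * (1 + s j)) • A (B v)
        rw [map_smul, smul_smul, mul_comm]
      rw [hA, hB] at h5
      exact h5

end

theorem sum_shift (m : ℕ) (f : ℕ → ℝ) :
    ∑ j ∈ Finset.range m, f (if j + 1 < m then j + 1 else 0) = ∑ j ∈ Finset.range m, f j := by
  rcases m with _ | m
  · simp
  · rw [Finset.sum_range_succ, Finset.sum_range_succ' f m, if_neg (by omega)]
    congr 1
    refine Finset.sum_congr rfl fun j hj => ?_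
    rw [Finset.mem_range] at hj
    rw [if_pos (by omega)]

section

variable {n : ℕ} {N : Type u} [MetricSpace N] [CompactSpace N]
  [ChartedSpace (V n) N] [IsManifold (𝓡 n) ∞ N]

/-- **The gap.** -/
theorem gap2 {r : ℕ∞} (hr : 1 ≤ r) (hL : ChartLip n N) (F : DiffM n N r)
    (hF : OmegaStable n N r F) : ∃ k : ℕ, 1 ≤ k ∧ (k : ℕ∞) ≤ r ∧ ∃ κ : ℝ, 0 < κ ∧
      ∀ (m : ℕ) (p : N) (ρ : ℕ → ℝ) (μ : ℂ), 1 ≤ m → Separated F m p ρ → IsMult n F m p μ →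
        μ ≠ 0 ∧ κ * ∑ i ∈ Finset.range m, ρ i ^ (k - 1) ≤ |Real.log ‖μ‖| := by
  obtain ⟨U, hU, hFU, hconj⟩ := hF
  have hst : ∀ G ∈ U, OmegaStable n N r G := fun G hG =>
    ⟨U, hU, hG, fun G' hG' => Pool.Agent.V8H52.OS.conj_of_conj F.continuous (hconj G hG)
      (hconj G' hG')⟩
  obtain ⟨k, hk1, hkr, κ, hκ, hκ2, h⟩ := realize_der hr hL F U hU hFU
  refine ⟨k, hk1, hkr, κ / 2, by positivity, fun m p ρ μ hm hρ hμ => ?_⟩
  obtain ⟨hmp, hμ⟩ := hμ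
  obtain ⟨M, hM⟩ : ∃ M : V n →L[ℝ] V n, M = mfderiv (𝓡 n) (𝓡 n) F^[m] p := ⟨_, rfl⟩
  have hμM : Eig (M : V n →ₗ[ℝ] V n) μ := by rw [hM]; exact hμ
  have hμ0 : μ ≠ 0 := eig_ne_zero (A := (M : V n →ₗ[ℝ] V n))
    (by rw [hM]; exact der_surj hr F m p) hμM
  refine ⟨hμ0, ?_⟩
  by_contra hlt
  rw [not_le] at hlt
  obtain ⟨s, hs⟩ : ∃ s : ℕ → ℝ, ∀ j, s j = κ * ρ (if j + 1 < m then j + 1 else 0) ^ (k - 1) :=
    ⟨_, fun _ => rfl⟩
  have hsum : ∑ j ∈ Finset.range m, s j = κ * ∑ i ∈ Finset.range m, ρ i ^ (k - 1) := by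
    rw [Finset.sum_congr rfl (fun j _ => hs j), sum_shift m (fun i => κ * ρ i ^ (k - 1)),
      Finset.mul_sum]
  have hs0 : ∀ j < m, 0 ≤ s j ∧ s j ≤ 1 / 2 := by
    intro j hj
    have hi : (if j + 1 < m then j + 1 else 0) < m := by split_ifs <;> omega
    obtain ⟨h1, h2, -⟩ := hρ _ hi
    rw [hs]
    refine ⟨by positivity, ?_⟩
    have h3 : ρ (if j + 1 < m then j + 1 else 0) ^ (k - 1) ≤ 1 := pow_le_one₀ h1.le h2
    nlinarith
  obtain ⟨g, hg⟩ : ∃ g : ℝ → ℝ, ∀ t, g t = ∑ j ∈ Finset.range m, Real.log (1 + t * s j) :=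
    ⟨_, fun _ => rfl⟩
  have hpos : ∀ t : ℝ, |t| ≤ 1 → ∀ j < m, 0 < 1 + t * s j := by
    intro t htt j hj
    obtain ⟨h1, h2⟩ := hs0 j hj
    have h3 := abs_le.1 htt
    nlinarith
  have hg1 : κ / 2 * ∑ i ∈ Finset.range m, ρ i ^ (k - 1) ≤ g 1 := by
    have e : κ / 2 * ∑ i ∈ Finset.range m, ρ i ^ (k - 1) = ∑ j ∈ Finset.range m, s j / 2 := by
      rw [← Finset.sum_div, hsum]
      ring
    rw [e, hg]
    refine Finset.sum_le_sum fun j hj => ?_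
    obtain ⟨h1, h2⟩ := hs0 j (Finset.mem_range.1 hj)
    rw [one_mul]
    have h3 := Real.one_sub_inv_le_log_of_pos (show 0 < 1 + s j by linarith)
    refine le_trans ?_ h3
    have h4 : 1 - (1 + s j)⁻¹ = s j / (1 + s j) := by
      field_simp
      ring
    rw [h4, div_le_div_iff₀ (by norm_num) (by linarith)]
    nlinarith
  have hg2 : g (-1) ≤ -(κ / 2 * ∑ i ∈ Finset.range m, ρ i ^ (k - 1)) := by
    have e : -(κ / 2 * ∑ i ∈ Finset.range m, ρ i ^ (k - 1)) =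
        ∑ j ∈ Finset.range m, -(s j / 2) := by
      rw [Finset.sum_neg_distrib, ← Finset.sum_div, hsum]
      ring
    rw [e, hg]
    refine Finset.sum_le_sum fun j hj => ?_
    obtain ⟨h1, h2⟩ := hs0 j (Finset.mem_range.1 hj)
    have h3 := Real.log_le_sub_one_of_pos (show 0 < 1 + -1 * s j by linarith)
    linarith
  have hcont : ContinuousOn g (Icc (-1) 1) := by
    have e : g = fun t => ∑ j ∈ Finset.range m, Real.log (1 + t * s j) := funext hg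
    rw [e]
    refine continuousOn_finsetSum _ fun j hj => ?_
    refine ContinuousOn.log (by fun_prop) fun t ht' => ?_
    exact (hpos t (abs_le.2 ht') j (Finset.mem_range.1 hj)).ne'
  obtain ⟨t, htI, hgt⟩ : -Real.log ‖μ‖ ∈ g '' Icc (-1) 1 := by
    refine intermediate_value_Icc (by norm_num) hcont ⟨?_, ?_⟩
    · have := (abs_lt.1 hlt).2
      linarith
    · have := (abs_lt.1 hlt).1
      linarith
  have htt : |t| ≤ 1 := abs_le.2 htI
  obtain ⟨G, hGU, hG⟩ := h m (fun i => F^[i] p) ρ hρ t htt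
  have hGF : ∀ i < m, G (F^[i] p) = F (F^[i] p) ∧ mfderiv (𝓡 n) (𝓡 n) G (F^[i] p) =
      (1 + t * s i) • (mfderiv (𝓡 n) (𝓡 n) F (F^[i] p) : V n →L[ℝ] V n) := by
    intro i hi
    have hi' : (if i + 1 < m then i + 1 else 0) < m := by split_ifs <;> omega
    have hy : F (F^[i] p) = F^[if i + 1 < m then i + 1 else 0] p := by
      rw [← Function.iterate_succ_apply' F i p]
      split_ifs with hif
      · rfl
      · have : i + 1 = m := by omega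
        show F^[i + 1] p = p
        rw [this, hmp]
    obtain ⟨e1, e2⟩ := hG _ hi' (F^[i] p) hy
    refine ⟨e1, ?_⟩
    rw [e2, hs]
  obtain ⟨e1, e2⟩ := iter_scale hr F G (s := fun i => t * s i) hGF m le_rfl
  obtain ⟨P, hP⟩ : ∃ P : ℝ, P = ∏ i ∈ Finset.range m, (1 + t * s i) := ⟨_, rfl⟩
  have hGmp : G^[m] p = p := by rw [e1, hmp]
  have hP0 : 0 < P := by
    rw [hP]
    exact Finset.prod_pos fun i hi => hpos t htt i (Finset.mem_range.1 hi)
  have hPlog : Real.log P = -Real.log ‖μ‖ := by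
    rw [hP, Real.log_prod (fun i hi => (hpos t htt i (Finset.mem_range.1 hi)).ne'), ← hgt, hg]
  have hPμ : P * ‖μ‖ = 1 := by
    have h1 : 0 < ‖μ‖ := norm_pos_iff.2 hμ0
    have h2 : Real.log (P * ‖μ‖) = 0 := by
      rw [Real.log_mul hP0.ne' h1.ne', hPlog]
      ring
    have h3 := Real.exp_log (mul_pos hP0 h1)
    rw [h2, Real.exp_zero] at h3
    exact h3.symm
  have hyp := Gen.stable_hyp hr (hst G hGU) p ⟨m, hm, hGmp⟩
  rw [← hP, ← hM] at e2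
  refine eig_hyp hr G hm hGmp hyp e2.symm (μ := (P : ℂ) * μ) ?_ ?_
  · exact eig_smul (A := (M : V n →ₗ[ℝ] V n)) hμM hP0.ne'
  · rw [norm_mul, Complex.norm_real, Real.norm_eq_abs, abs_of_pos hP0, hPμ]

end

end Pool.Agent.V8H52.NH
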