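import Pool.Agent.H718R2.G0

/-!
# Definitions: eigenvalues of the derivative at a periodic point, separation of a periodic orbit
-/

set_option autoImplicit false

open scoped Manifold ContDiff Topology
open Set

universe u

namespace Pool.Agent.V8H52.NH

open Pool.Agent.H718R2.G

/-- the derivative of `F` at `p` (the model space `V n = ℝⁿ` is the tangent space at each point in
Mathlib) -/
noncomputable def der (n : ℕ) {N : Type u} [TopologicalSpace N] [ChartedSpace (V n) N] (F : N → N)
    (p : N) : V n →L[ℝ] V n :=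
  mfderiv (𝓡 n) (𝓡 n) F p

/-- `μ ∈ ℂ` is an eigenvalue of the derivative of `F^m` at the point `p` with `F^m(p) = p`: a root of
the characteristic polynomial. -/
def IsMult (n : ℕ) {N : Type u} [TopologicalSpace N] [ChartedSpace (V n) N] (F : N → N) (m : ℕ)
    (p : N) (μ : ℂ) : Prop :=
  F^[m] p = p ∧
    ((LinearMap.charpoly (der n F^[m] p : V n →ₗ[ℝ] V n)).map (algebraMap ℝ ℂ)).IsRoot μ

/-- `0 < ρ i ≤ 1` and the ball with radius `ρ i` around `F^i(p)` contains no other point of the orbit
`p, F(p), …, F^(m-1)(p)`. (So if `F^m(p) = p`, then `m` is the minimal period.) -/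
def Separated {N : Type u} [MetricSpace N] (F : N → N) (m : ℕ) (p : N) (ρ : ℕ → ℝ) : Prop :=
  ∀ i < m, 0 < ρ i ∧ ρ i ≤ 1 ∧ ∀ j < m, j ≠ i → ρ i ≤ dist (F^[j] p) (F^[i] p)

end Pool.Agent.V8H52.NH
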