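import Pool.Agent.V8H52.NH.Field
import Pool.Agent.V8H52.NH.Lin
import Pool.Agent.V8H52.OS.Glob
import Pool.Agent.R773.FC.Loc
import Pool.Agent.W699.SC.GC
import Pool.Agent.Y504.CO.Gen

/-!
# Periodic points in invariant sets with a normal cocycle
-/

set_option autoImplicit false
set_option linter.unusedSectionVars false

open scoped Manifold ContDiff Topology
open Filter Set Metric

universe u

namespace Pool.Agent.V8H52.NH

open Pool.Agent.H718R2.G Pool.Agent.TH80.OMS Pool.Agent.Y504.CO Pool.Agent.W564.SC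
  Pool.Agent.R773.FC

section

variable {n : ℕ} {N : Type u} [TopologicalSpace N] [T2Space N] [CompactSpace N]
  [ChartedSpace (V n) N] [IsManifold (𝓡 n) ∞ N]
  {E : Type*} [NormedAddCommGroup E] [NormedSpace ℝ E] [FiniteDimensional ℝ E]

/-- the derivative of `φ ∘ Θ` at a zero of `φ` -/
theorem push_deriv {r : ℕ∞} {φ : N → E} (hφ : ContMDiff (𝓡 n) 𝓘(ℝ, E) ∞ φ)
    {χ : OpenPartialHomeomorph N (V n)} {z : N} (hχ : GoodChart n N χ z)
    {u : V n → V n} (hu : ContDiff ℝ ∞ u) (hu0 : ∀ x, 1 / 2 ≤ ‖x‖ → u x = 0)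
    {θ : V n → ℝ} (hθ0 : ∀ x, 1 / 2 ≤ ‖x‖ → θ x = 0)
    (h : ∀ x ∈ ball (0 : V n) 1, φ (χ.symm x) = 0 → u x = 0 ∧
        ∀ v, fderiv ℝ (φ ∘ χ.symm) x (fderiv ℝ u x v) = θ x • fderiv ℝ (φ ∘ χ.symm) x v)
    {Θ : DiffM n N r} (hΘ : IsPush n N r χ u Θ) {y : N} (hy : φ y = 0) :
    Θ y = y ∧ ((y ∈ χ.source → mfderiv (𝓡 n) 𝓘(ℝ, E) (φ ∘ Θ) y =
      (1 + θ (χ y)) • mfderiv (𝓡 n) 𝓘(ℝ, E) φ y)) ∧
      (y ∉ χ.source → mfderiv (𝓡 n) 𝓘(ℝ, E) (φ ∘ Θ) y = mfderiv (𝓡 n) 𝓘(ℝ, E) φ y) := by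
  have hcpt : IsCompact (χ.symm '' closedBall (0 : V n) (1 / 2)) := by
    refine (isCompact_closedBall (0 : V n) (1 / 2)).image_of_continuousOn ?_
    exact χ.continuousOn_symm.mono ((closedBall_subset_closedBall (by norm_num)).trans hχ.ball)
  have hout : ∀ y, y ∉ χ.symm '' closedBall (0 : V n) (1 / 2) → Θ y = y := by
    intro y hy
    by_cases hys : y ∈ χ.source
    · have h1 : 1 / 2 ≤ ‖χ y‖ := by
        by_contra hlt
        rw [not_le] at hlt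
        exact hy ⟨χ y, by rw [mem_closedBall, dist_zero_right]; exact hlt.le, χ.left_inv hys⟩
      obtain ⟨h2, h3⟩ := hΘ.1 y hys
      rw [hu0 _ h1, add_zero] at h3
      exact χ.injOn h2 hys h3
    · exact hΘ.2 y hys
  by_cases hyC : y ∈ χ.symm '' closedBall (0 : V n) (1 / 2)
  · obtain ⟨v, hv, rfl⟩ := hyC
    have hvt : v ∈ χ.target := hχ.ball (closedBall_subset_closedBall (by norm_num) hv)
    have hv1 : v ∈ ball (0 : V n) 1 := by
      rw [mem_closedBall] at hv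
      rw [mem_ball]
      linarith
    have hys : χ.symm v ∈ χ.source := χ.map_target hvt
    have hcv : χ (χ.symm v) = v := χ.right_inv hvt
    obtain ⟨h1, h2⟩ := h v hv1 hy
    have hfix : Θ (χ.symm v) = χ.symm v := by
      obtain ⟨h3, h4⟩ := hΘ.1 _ hys
      rw [hcv, h1, add_zero] at h4
      exact χ.injOn h3 hys (h4.trans hcv.symm)
    refine ⟨hfix, fun _ => ?_, fun h' => absurd hys h'⟩
    rw [hcv]
    -- smoothness
    have hsm : ContMDiffAt 𝓘(ℝ, V n) (𝓡 n) ∞ χ.symm v :=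
      (contMDiffOn_symm_of_mem_maximalAtlas hχ.mem).contMDiffAt (χ.open_target.mem_nhds hvt)
    have hf : DifferentiableAt ℝ (φ ∘ χ.symm) v := by
      have h5 : ContMDiffAt (𝓡 n) 𝓘(ℝ, E) ∞ (φ ∘ χ.symm) v := hφ.contMDiffAt.comp v hsm
      exact (contMDiffAt_iff_contDiffAt.1 h5).differentiableAt (by simp)
    have hχd : MDifferentiableAt (𝓡 n) 𝓘(ℝ, V n) χ (χ.symm v) :=
      ((contMDiffOn_of_mem_maximalAtlas hχ.mem).contMDiffAt
        (χ.open_source.mem_nhds hys)).mdifferentiableAt (by simp)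
    -- the two germs
    have e1 : φ =ᶠ[𝓝 (χ.symm v)] (φ ∘ χ.symm) ∘ χ := by
      filter_upwards [χ.open_source.mem_nhds hys] with y hy
      show φ y = φ (χ.symm (χ y))
      rw [χ.left_inv hy]
    have e2 : φ ∘ Θ =ᶠ[𝓝 (χ.symm v)] ((φ ∘ χ.symm) ∘ fun x => x + u x) ∘ χ := by
      filter_upwards [χ.open_source.mem_nhds hys] with y hy
      show φ (Θ y) = φ (χ.symm (χ y + u (χ y)))
      obtain ⟨h3, h4⟩ := hΘ.1 y hy
      rw [← h4, χ.left_inv h3]
    have hud : HasFDerivAt (fun x => x + u x) (ContinuousLinearMap.id ℝ (V n) + fderiv ℝ u v) v :=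
      (hasFDerivAt_id v).add ((hu.differentiable (by simp)).differentiableAt.hasFDerivAt)
    have hcomp : HasFDerivAt ((φ ∘ χ.symm) ∘ fun x => x + u x)
        ((fderiv ℝ (φ ∘ χ.symm) v).comp (ContinuousLinearMap.id ℝ (V n) + fderiv ℝ u v)) v := by
      refine HasFDerivAt.comp v ?_ hud
      show HasFDerivAt (φ ∘ χ.symm) (fderiv ℝ (φ ∘ χ.symm) v) (v + u v)
      rw [h1, add_zero]
      exact hf.hasFDerivAt
    have hcomp' : (fderiv ℝ (φ ∘ χ.symm) v).comp (ContinuousLinearMap.id ℝ (V n) + fderiv ℝ u v) =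
        (1 + θ v) • fderiv ℝ (φ ∘ χ.symm) v := by
      ext w
      show fderiv ℝ (φ ∘ χ.symm) v (w + fderiv ℝ u v w) = (1 + θ v) • fderiv ℝ (φ ∘ χ.symm) v w
      rw [map_add, h2, add_smul, one_smul]
    rw [hcomp'] at hcomp
    have m1 : mfderiv (𝓡 n) 𝓘(ℝ, E) φ (χ.symm v) =
        (fderiv ℝ (φ ∘ χ.symm) v).comp (mfderiv (𝓡 n) 𝓘(ℝ, V n) χ (χ.symm v)) := by
      rw [e1.mfderiv_eq]
      refine HasMFDerivAt.mfderiv (HasMFDerivAt.comp _ ?_ hχd.hasMFDerivAt)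
      rw [hcv]
      exact hf.hasFDerivAt.hasMFDerivAt
    have m2 : mfderiv (𝓡 n) 𝓘(ℝ, E) (φ ∘ Θ) (χ.symm v) =
        ((1 + θ v) • fderiv ℝ (φ ∘ χ.symm) v).comp (mfderiv (𝓡 n) 𝓘(ℝ, V n) χ (χ.symm v)) := by
      rw [e2.mfderiv_eq]
      refine HasMFDerivAt.mfderiv (HasMFDerivAt.comp _ ?_ hχd.hasMFDerivAt)
      rw [hcv]
      exact hcomp.hasMFDerivAt
    rw [m2, m1]
    rfl
  · have hfix := hout y hyC
    have hev : φ ∘ Θ =ᶠ[𝓝 y] φ := by
      filter_upwards [hcpt.isClosed.isOpen_compl.mem_nhds hyC] with y' hy'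
      show φ (Θ y') = φ y'
      rw [hout y' hy']
    refine ⟨hfix, fun hys => ?_, fun _ => hev.mfderiv_eq⟩
    have h1 : 1 / 2 ≤ ‖χ y‖ := by
      by_contra hlt
      rw [not_le] at hlt
      exact hyC ⟨χ y, by rw [mem_closedBall, dist_zero_right]; exact hlt.le, χ.left_inv hys⟩
    rw [hθ0 _ h1, add_zero, one_smul]
    exact hev.mfderiv_eq

theorem local_pert {r : ℕ∞} (hr : 1 ≤ r) (F : DiffM n N r) (U : Set (DiffM n N r))
    (hU : IsOpen[strongTop n N r] U) (hFU : F ∈ U) {φ : N → E}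
    (hφ : ContMDiff (𝓡 n) 𝓘(ℝ, E) ∞ φ) {z : N}
    (hs : Function.Surjective (mfderiv (𝓡 n) 𝓘(ℝ, E) φ z)) :
    ∃ (θ : N → ℝ) (t₀ : ℝ), 0 < t₀ ∧ t₀ ≤ 1 / 2 ∧ (∀ y, 0 ≤ θ y ∧ θ y ≤ 1) ∧
      (∀ᶠ y in 𝓝 z, θ y = 1) ∧ ∀ t : ℝ, |t| ≤ t₀ → ∃ G ∈ U, ∀ x, φ (F x) = 0 → G x = F x ∧
        mfderiv (𝓡 n) 𝓘(ℝ, E) (φ ∘ G) x =
          (1 + t * θ (F x)) • mfderiv (𝓡 n) 𝓘(ℝ, E) (φ ∘ F) x := by
  classical
  obtain ⟨χ, hχ⟩ := Pool.Agent.W699.SC.gc n N z
  have hzt : (0 : V n) ∈ χ.target := by rw [← hχ.zero]; exact χ.map_source hχ.src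
  have hz0 : χ.symm 0 = z := by rw [← hχ.zero]; exact χ.left_inv hχ.src
  -- the map in the chart
  have hf : ContDiffOn ℝ ∞ (φ ∘ χ.symm) (ball 0 1) := by
    intro x hx
    have hxt : x ∈ χ.target := hχ.ball (ball_subset_closedBall hx)
    have h5 : ContMDiffAt (𝓡 n) 𝓘(ℝ, E) ∞ (φ ∘ χ.symm) x := hφ.contMDiffAt.comp x
      ((contMDiffOn_symm_of_mem_maximalAtlas hχ.mem).contMDiffAt (χ.open_target.mem_nhds hxt))
    exact (contMDiffAt_iff_contDiffAt.1 h5).contDiffWithinAt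
  have hsurj : Function.Surjective (fderiv ℝ (φ ∘ χ.symm) 0) := by
    have hχd : MDifferentiableAt (𝓡 n) 𝓘(ℝ, V n) χ z :=
      ((contMDiffOn_of_mem_maximalAtlas hχ.mem).contMDiffAt
        (χ.open_source.mem_nhds hχ.src)).mdifferentiableAt (by simp)
    have e1 : φ =ᶠ[𝓝 z] (φ ∘ χ.symm) ∘ χ := by
      filter_upwards [χ.open_source.mem_nhds hχ.src] with y hy
      show φ y = φ (χ.symm (χ y))
      rw [χ.left_inv hy]
    have hfd : DifferentiableAt ℝ (φ ∘ χ.symm) 0 :=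
      (hf.contDiffAt (isOpen_ball.mem_nhds (mem_ball_self one_pos))).differentiableAt (by simp)
    have m1 : mfderiv (𝓡 n) 𝓘(ℝ, E) φ z =
        (fderiv ℝ (φ ∘ χ.symm) 0).comp (mfderiv (𝓡 n) 𝓘(ℝ, V n) χ z) := by
      rw [e1.mfderiv_eq]
      refine HasMFDerivAt.mfderiv (HasMFDerivAt.comp _ ?_ hχd.hasMFDerivAt)
      rw [hχ.zero]
      exact hfd.hasFDerivAt.hasMFDerivAt
    rw [m1] at hs
    intro e
    obtain ⟨v, hv⟩ := hs e
    exact ⟨_, hv⟩
  obtain ⟨ρ, θ, u, hρ, hu, hu0, hθ0, hθ1, hθ, h⟩ := exists_field (φ ∘ χ.symm) hf hsurj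
  obtain ⟨k, hk1, hkr, κ₀, hκ₀, hN⟩ := t_NBHD n N r hr ℝ (fun _ => F) (isFam_const F) χ z hχ U hU
    hFU
  obtain ⟨C, hC, hCb⟩ := bounded_iterated hu hu0 (max k 1)
  let θN : N → ℝ := fun y => if y ∈ χ.source then θ (χ y) else 0
  refine ⟨θN, min (1 / 2) (min (κ₀ / C) (1 / (2 * C))), ?_, min_le_left _ _, ?_, ?_, ?_⟩
  · exact lt_min (by norm_num) (lt_min (by positivity) (by positivity))
  · intro y
    by_cases hy : y ∈ χ.source
    · simp only [θN, if_pos hy]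
      exact hθ _
    · simp only [θN, if_neg hy]
      norm_num
  · have h2 : ∀ᶠ y in 𝓝 z, ‖χ y‖ < ρ := by
      have hc : ContinuousAt (fun y => ‖χ y‖) z := (χ.continuousAt hχ.src).norm
      refine hc.eventually (gt_mem_nhds ?_)
      show ‖χ z‖ < _
      rw [hχ.zero, norm_zero]
      exact hρ
    filter_upwards [χ.open_source.mem_nhds hχ.src, h2] with y hy hy2
    simp only [θN, if_pos hy]
    exact hθ1 _ hy2.le
  · intro t ht
    have ht1 : |t| ≤ κ₀ / C := ht.trans ((min_le_right _ _).trans (min_le_left _ _))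
    have ht2 : |t| ≤ 1 / (2 * C) := ht.trans ((min_le_right _ _).trans (min_le_right _ _))
    have hsm : ∀ (j : ℕ) (κ : ℝ), j ≤ max k 1 → |t| * C ≤ κ → Small n j κ (fun x => t • u x) := by
      intro j κ hj hκ
      refine ⟨hu.const_smul t, fun x hx => by rw [hu0 x hx, smul_zero], fun i hi x => ?_⟩
      have h0 : ContDiffAt ℝ i u x := hu.contDiffAt.of_le (by exact_mod_cast le_top)
      have h1 : iteratedFDeriv ℝ i (fun x => t • u x) x = t • iteratedFDeriv ℝ i u x :=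
        iteratedFDeriv_const_smul_apply (a := t) h0
      rw [h1, norm_smul, Real.norm_eq_abs]
      exact (mul_le_mul_of_nonneg_left (hCb i (hi.trans hj) x) (abs_nonneg t)).trans hκ
    have hs1 : Small n 1 (1 / 2) (fun x => t • u x) := by
      refine hsm 1 _ (le_max_right _ _) ?_
      calc |t| * C ≤ 1 / (2 * C) * C := mul_le_mul_of_nonneg_right ht2 hC.le
        _ = 1 / 2 := by field_simp
    have hsk : Small n k κ₀ (fun x => t • u x) := by
      refine hsm k _ (le_max_left _ _) ?_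
      calc |t| * C ≤ κ₀ / C * C := mul_le_mul_of_nonneg_right ht1 hC.le
        _ = κ₀ := by field_simp
    obtain ⟨Θ, hΘ⟩ := Pool.Agent.W428.SC.push n N r χ z hχ _ hs1
    refine ⟨F.trans Θ, hN 0 _ Θ (by rw [norm_zero]; exact hκ₀) hsk hΘ, fun x hx => ?_⟩
    have hP := push_deriv (n := n) (u := fun x => t • u x) (θ := fun x => t * θ x) hφ hχ
      (hu.const_smul t) (fun x hx => by rw [hu0 x hx, smul_zero])
      (fun x hx => by rw [hθ0 x hx, mul_zero]) ?_ hΘ hx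
    · obtain ⟨h1, h2, h3⟩ := hP
      refine ⟨h1, ?_⟩
      have hF1 : MDifferentiableAt (𝓡 n) (𝓡 n) F x :=
        (Pool.Agent.Y675.CO.CI.smooth1 hr F).mdifferentiableAt one_ne_zero
      have hφ1 : MDifferentiableAt (𝓡 n) 𝓘(ℝ, E) φ (F x) := hφ.mdifferentiableAt (by simp)
      have hΘ1 : MDifferentiableAt (𝓡 n) (𝓡 n) Θ (F x) :=
        (Pool.Agent.Y675.CO.CI.smooth1 hr Θ).mdifferentiableAt one_ne_zero
      have hφΘ : MDifferentiableAt (𝓡 n) 𝓘(ℝ, E) (φ ∘ Θ) (F x) := by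
        refine MDifferentiableAt.comp (F x) ?_ hΘ1
        exact hφ.mdifferentiableAt (by simp)
      have e1 : φ ∘ (F.trans Θ) = (φ ∘ Θ) ∘ F := rfl
      rw [e1, mfderiv_comp x hφΘ hF1, mfderiv_comp x hφ1 hF1]
      have e2 : mfderiv (𝓡 n) 𝓘(ℝ, E) (φ ∘ Θ) (F x) =
          (1 + t * θN (F x)) • mfderiv (𝓡 n) 𝓘(ℝ, E) φ (F x) := by
        by_cases hy : F x ∈ χ.source
        · simp only [θN, if_pos hy]
          exact h2 hy
        · simp only [θN, if_neg hy, mul_zero, add_zero, one_smul]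
          exact h3 hy
      rw [e2]
      rfl
    · intro x hx hx0
      obtain ⟨h1, h2⟩ := h x hx hx0
      refine ⟨by rw [h1, smul_zero], fun v => ?_⟩
      have h4 : fderiv ℝ (fun x => t • u x) x = t • fderiv ℝ u x :=
        fderiv_const_smul (hu.differentiable (by simp)).differentiableAt t
      rw [h4]
      show fderiv ℝ (φ ∘ χ.symm) x (t • fderiv ℝ u x v) = _
      rw [map_smul, h2, smul_smul]

end

end Pool.Agent.V8H52.NH
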