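import Pool.Agent.V8H52.NH.Gap
import Pool.Agent.V8H52.NH.Coc

/-!
# Codimension one
-/

set_option autoImplicit false
set_option linter.unusedSectionVars false

open scoped Manifold ContDiff Topology
open Filter Set Metric

universe u

namespace Pool.Agent.V8H52.NH

open Pool.Agent.H718R2.G Pool.Agent.TH80.OMS Pool.Agent.Y504.CO

section

variable {n : ℕ} {N : Type u} [TopologicalSpace N] [T2Space N] [CompactSpace N]
  [ChartedSpace (V n) N] [IsManifold (𝓡 n) ∞ N]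

/-- the derivative in a chart -/
theorem chart_deriv {φ : N → ℝ} {ψ : OpenPartialHomeomorph N (V n)}
    (hψ : ψ ∈ IsManifold.maximalAtlas (𝓡 n) ∞ N) {x : N} (hx : x ∈ ψ.source)
    (hφ : MDifferentiableAt (𝓡 n) 𝓘(ℝ, ℝ) φ x) :
    fderiv ℝ (φ ∘ ψ.symm) (ψ x) =
      ((mfderiv (𝓡 n) 𝓘(ℝ, ℝ) φ x : V n →L[ℝ] ℝ)).comp
        (mfderiv 𝓘(ℝ, V n) (𝓡 n) ψ.symm (ψ x) : V n →L[ℝ] V n) := by
  have ht : ψ x ∈ ψ.target := ψ.map_source hx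
  have hsp : ψ.symm (ψ x) = x := ψ.left_inv hx
  have hsm : MDifferentiableAt 𝓘(ℝ, V n) (𝓡 n) ψ.symm (ψ x) :=
    ((contMDiffOn_symm_of_mem_maximalAtlas hψ).contMDiffAt
      (ψ.open_target.mem_nhds ht)).mdifferentiableAt (by simp)
  obtain ⟨T, hT⟩ : ∃ T : V n →L[ℝ] V n, T = mfderiv 𝓘(ℝ, V n) (𝓡 n) ψ.symm (ψ x) := ⟨_, rfl⟩
  obtain ⟨L, hL⟩ : ∃ L : V n →L[ℝ] ℝ, L = mfderiv (𝓡 n) 𝓘(ℝ, ℝ) φ x := ⟨_, rfl⟩
  have hφψ : HasFDerivAt (φ ∘ ψ.symm) (L.comp T) (ψ x) := by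
    have h1 : HasMFDerivAt 𝓘(ℝ, V n) 𝓘(ℝ, ℝ) (φ ∘ ψ.symm) (ψ x) (L.comp T) := by
      rw [hT]
      refine HasMFDerivAt.comp _ ?_ hsm.hasMFDerivAt
      rw [hsp, hL]
      exact hφ.hasMFDerivAt
    exact h1.hasFDerivAt
  rw [hφψ.fderiv, hL, hT]
  rfl

theorem cont_a {r : ℕ∞} (hr : 1 ≤ r) (F : DiffM n N r) {φ : N → ℝ}
    (hφ : ContMDiff (𝓡 n) 𝓘(ℝ, ℝ) ∞ φ) {K : Set N}
    (hs : ∀ x ∈ K, mfderiv (𝓡 n) 𝓘(ℝ, ℝ) φ x ≠ 0) {a : N → ℝ}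
    (ha : ∀ x ∈ K, mfderiv (𝓡 n) 𝓘(ℝ, ℝ) (φ ∘ F) x = a x • mfderiv (𝓡 n) 𝓘(ℝ, ℝ) φ x) :
    ContinuousOn a K := by
  intro x₀ hx₀
  set ψ := chartAt (V n) x₀ with hψ
  have hψm : ψ ∈ IsManifold.maximalAtlas (𝓡 n) ∞ N := IsManifold.chart_mem_maximalAtlas x₀
  have hpψ : x₀ ∈ ψ.source := mem_chart_source (V n) x₀
  have ht : ψ x₀ ∈ ψ.target := ψ.map_source hpψ
  have hsp : ψ.symm (ψ x₀) = x₀ := ψ.left_inv hpψ
  have hsmooth : ContMDiffAt 𝓘(ℝ, V n) (𝓡 n) ∞ ψ.symm (ψ x₀) :=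
    (contMDiffOn_symm_of_mem_maximalAtlas hψm).contMDiffAt (ψ.open_target.mem_nhds ht)
  have hφF : ContMDiff (𝓡 n) 𝓘(ℝ, ℝ) 1 (φ ∘ F) :=
    (hφ.of_le (by norm_num)).comp (Pool.Agent.Y675.CO.CI.smooth1 hr F)
  -- continuity of the derivatives
  have hc : ∀ g : N → ℝ, ContMDiff (𝓡 n) 𝓘(ℝ, ℝ) 1 g →
      ContinuousAt (fun x => fderiv ℝ (g ∘ ψ.symm) (ψ x)) x₀ := by
    intro g hg
    have h1 : ContMDiffAt 𝓘(ℝ, V n) 𝓘(ℝ, ℝ) 1 (g ∘ ψ.symm) (ψ x₀) :=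
      hg.contMDiffAt.comp _ (hsmooth.of_le (by norm_num))
    have h2 : ContDiffAt ℝ 1 (g ∘ ψ.symm) (ψ x₀) := contMDiffAt_iff_contDiffAt.1 h1
    have h3 : ContinuousAt (fderiv ℝ (g ∘ ψ.symm)) (ψ x₀) :=
      (h2.fderiv_right (m := 0) (by norm_num)).continuousAt
    exact ContinuousAt.comp (g := fderiv ℝ (g ∘ ψ.symm)) h3 (ψ.continuousAt hpψ)
  have hcφ := hc φ (hφ.of_le (by norm_num))
  have hcF := hc (φ ∘ F) hφF
  -- a direction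
  have hne : ∃ w : V n, fderiv ℝ (φ ∘ ψ.symm) (ψ x₀) w ≠ 0 := by
    by_contra hcon
    push Not at hcon
    apply hs x₀ hx₀
    have hψd : MDifferentiableAt (𝓡 n) 𝓘(ℝ, V n) ψ x₀ :=
      ((contMDiffOn_of_mem_maximalAtlas hψm).contMDiffAt
        (ψ.open_source.mem_nhds hpψ)).mdifferentiableAt (by simp)
    have e1 : φ =ᶠ[𝓝 x₀] (φ ∘ ψ.symm) ∘ ψ := by
      filter_upwards [ψ.open_source.mem_nhds hpψ] with y hy
      show φ y = φ (ψ.symm (ψ y))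
      rw [ψ.left_inv hy]
    have hfd : DifferentiableAt ℝ (φ ∘ ψ.symm) (ψ x₀) := by
      have h1 : ContMDiffAt 𝓘(ℝ, V n) 𝓘(ℝ, ℝ) 1 (φ ∘ ψ.symm) (ψ x₀) :=
        (hφ.of_le (by norm_num)).contMDiffAt.comp _ (hsmooth.of_le (by norm_num))
      exact (contMDiffAt_iff_contDiffAt.1 h1).differentiableAt one_ne_zero
    have m1 : mfderiv (𝓡 n) 𝓘(ℝ, ℝ) φ x₀ =
        (fderiv ℝ (φ ∘ ψ.symm) (ψ x₀)).comp (mfderiv (𝓡 n) 𝓘(ℝ, V n) ψ x₀) := by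
      rw [e1.mfderiv_eq]
      exact HasMFDerivAt.mfderiv (HasMFDerivAt.comp _ hfd.hasFDerivAt.hasMFDerivAt
        hψd.hasMFDerivAt)
    have h0 : fderiv ℝ (φ ∘ ψ.symm) (ψ x₀) = 0 := by
      ext w
      exact hcon w
    rw [m1, h0]
    rfl
  obtain ⟨w, hw⟩ := hne
  have hcφw : ContinuousAt (fun x => fderiv ℝ (φ ∘ ψ.symm) (ψ x) w) x₀ :=
    hcφ.clm_apply continuousAt_const
  have hcFw : ContinuousAt (fun x => fderiv ℝ ((φ ∘ F) ∘ ψ.symm) (ψ x) w) x₀ :=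
    hcF.clm_apply continuousAt_const
  have hquot : ContinuousAt (fun x => fderiv ℝ ((φ ∘ F) ∘ ψ.symm) (ψ x) w /
      fderiv ℝ (φ ∘ ψ.symm) (ψ x) w) x₀ := hcFw.div hcφw hw
  have hev : ∀ᶠ x in 𝓝[K] x₀, a x = fderiv ℝ ((φ ∘ F) ∘ ψ.symm) (ψ x) w /
      fderiv ℝ (φ ∘ ψ.symm) (ψ x) w := by
    have h1 : ∀ᶠ x in 𝓝 x₀, fderiv ℝ (φ ∘ ψ.symm) (ψ x) w ≠ 0 := hcφw.eventually_ne hw
    filter_upwards [nhdsWithin_le_nhds h1, nhdsWithin_le_nhds (ψ.open_source.mem_nhds hpψ),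
      self_mem_nhdsWithin] with x hx1 hx2 hx3
    rw [eq_div_iff hx1]
    rw [chart_deriv hψm hx2 (hφF.mdifferentiableAt one_ne_zero),
      chart_deriv hψm hx2 (hφ.mdifferentiableAt (by simp)), ha x hx3]
    rfl
  have hx0' : a x₀ = fderiv ℝ ((φ ∘ F) ∘ ψ.symm) (ψ x₀) w / fderiv ℝ (φ ∘ ψ.symm) (ψ x₀) w :=
    hev.self_of_nhdsWithin hx₀
  exact hquot.continuousWithinAt.congr_of_eventuallyEq hev hx0'

end

section

variable {n : ℕ} {N : Type u} [MetricSpace N] [CompactSpace N]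
  [ChartedSpace (V n) N] [IsManifold (𝓡 n) ∞ N]

theorem cocyc_real {F : N → N} {a : N → ℝ} (m : ℕ) (x : N) :
    cocyc F (fun x => a x • ContinuousLinearMap.id ℝ ℝ) m x =
      (∏ i ∈ Finset.range m, a (F^[i] x)) • ContinuousLinearMap.id ℝ ℝ := by
  induction m with
  | zero =>
    rw [Finset.range_zero, Finset.prod_empty, one_smul]
    rfl
  | succ m ih =>
    show (a (F^[m] x) • ContinuousLinearMap.id ℝ ℝ).comp (cocyc F _ m x) = _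
    rw [ih, Finset.prod_range_succ]
    ext
    simp [mul_comm]

theorem eig_real (c : ℝ) : Eig ((c • ContinuousLinearMap.id ℝ ℝ : ℝ →L[ℝ] ℝ) : ℝ →ₗ[ℝ] ℝ)
    (c : ℂ) := by
  have h1 : ((c • ContinuousLinearMap.id ℝ ℝ : ℝ →L[ℝ] ℝ) : ℝ →ₗ[ℝ] ℝ) =
      algebraMap ℝ (Module.End ℝ ℝ) c := by
    ext
    simp
  rw [h1]
  unfold Eig
  rw [Polynomial.IsRoot, Polynomial.eval_map]
  have h2 : (algebraMap ℝ (Module.End ℝ ℝ) c).charpoly.eval c = 0 := by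
    have h3 : Module.End.HasEigenvalue (algebraMap ℝ (Module.End ℝ ℝ) c) c := by
      rw [Module.End.hasEigenvalue_iff]
      intro hbot
      have h4 : (1 : ℝ) ∈ Module.End.eigenspace (algebraMap ℝ (Module.End ℝ ℝ) c) c := by
        rw [Module.End.mem_eigenspace_iff]
        simp
      rw [hbot] at h4
      simp at h4
    exact (Module.End.hasEigenvalue_iff_isRoot_charpoly _ _).1 h3
  show Polynomial.eval₂ (algebraMap ℝ ℂ) (algebraMap ℝ ℂ c) _ = 0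
  rw [Polynomial.eval₂_at_apply, h2, map_zero]

theorem surj_of_ne (L : V n →L[ℝ] ℝ) (h : L ≠ 0) : Function.Surjective L := by
  obtain ⟨v, hv⟩ : ∃ v, L v ≠ 0 := by
    by_contra hcon
    push Not at hcon
    exact h (by ext v; exact hcon v)
  intro e
  refine ⟨(e / L v) • v, ?_⟩
  rw [map_smul, smul_eq_mul, div_mul_cancel₀ _ hv]

/-- **Codimension one.** -/
theorem codim_one {r : ℕ∞} (hr : 1 ≤ r) (F : DiffM n N r) (hF : OmegaStable n N r F) {φ : N → ℝ}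
    (hφ : ContMDiff (𝓡 n) 𝓘(ℝ, ℝ) ∞ φ) {K : Set N} (hK : IsClosed K) (hm : MapsTo F K K)
    (h0 : ∀ x ∈ K, φ x = 0) (hs : ∀ x ∈ K, mfderiv (𝓡 n) 𝓘(ℝ, ℝ) φ x ≠ 0) {a : N → ℝ}
    (ha : ∀ x ∈ K, mfderiv (𝓡 n) 𝓘(ℝ, ℝ) (φ ∘ F) x = a x • mfderiv (𝓡 n) 𝓘(ℝ, ℝ) φ x)
    (hct : ChainTrans F K) (hps : PerShadow F K) :
    ∃ C l : ℝ, 0 < C ∧ 1 < l ∧
      ((∀ x ∈ K, ∀ m : ℕ, C⁻¹ * l ^ m ≤ ∏ i ∈ Finset.range m, |a (F^[i] x)|) ∨
       ∀ x ∈ K, ∀ m : ℕ, ∏ i ∈ Finset.range m, |a (F^[i] x)| ≤ C * (l⁻¹) ^ m) := by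
  have hsurj : ∀ x ∈ K, Function.Surjective (mfderiv (𝓡 n) 𝓘(ℝ, ℝ) φ x) := by
    intro x hx
    exact surj_of_ne (mfderiv (𝓡 n) 𝓘(ℝ, ℝ) φ x) (hs x hx)
  have hA : ∀ x ∈ K, mfderiv (𝓡 n) 𝓘(ℝ, ℝ) (φ ∘ F) x =
      ((fun x => a x • ContinuousLinearMap.id ℝ ℝ) x).comp (mfderiv (𝓡 n) 𝓘(ℝ, ℝ) φ x) := by
    intro x hx
    rw [ha x hx]
    rfl
  have ha0 : ∀ x ∈ K, a x ≠ 0 := by
    intro x hx h
    obtain ⟨v, hv⟩ := A_surj hr F hφ (hsurj _ (hm hx)) (hA x hx) 1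
    have hv' : a x * v = 1 := hv
    rw [h, zero_mul] at hv'
    exact zero_ne_one hv'
  obtain ⟨c, hc, hgap⟩ := gap hr F hF hφ hK hm h0 hsurj hA
  have hcont := cont_a hr F hφ hs ha
  obtain ⟨C, hC⟩ := dichotomy F.continuous hK.isCompact hm hct hps
    (b := fun x => Real.log |a x|) (hcont.abs.log fun x hx => abs_ne_zero.2 (ha0 x hx)) hc (by
      intro p hp m hm1 hmp
      have h1 := (hgap p hp m hm1 hmp ((∏ i ∈ Finset.range m, a (F^[i] p) : ℝ) : ℂ) (by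
        rw [cocyc_real]
        exact eig_real _)).2
      rw [Complex.norm_real, Real.norm_eq_abs, Finset.abs_prod, Real.log_prod] at h1
      · exact h1
      · intro i _
        exact abs_ne_zero.2 (ha0 _ (hm.iterate i hp)))
  have hexp : ∀ x ∈ K, ∀ m : ℕ, ∏ i ∈ Finset.range m, |a (F^[i] x)| =
      Real.exp (∑ i ∈ Finset.range m, Real.log |a (F^[i] x)|) := by
    intro x hx m
    rw [Real.exp_sum]
    refine Finset.prod_congr rfl fun i _ => ?_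
    rw [Real.exp_log (abs_pos.2 (ha0 _ (hm.iterate i hx)))]
  refine ⟨Real.exp C, Real.exp (c / 2), Real.exp_pos _, Real.one_lt_exp_iff.2 (by positivity), ?_⟩
  rcases hC with hC | hC
  · left
    intro x hx m
    rw [hexp x hx, ← Real.exp_neg, ← Real.exp_nat_mul, ← Real.exp_add]
    refine Real.exp_le_exp.2 ?_
    have := hC x hx m
    linarith
  · right
    intro x hx m
    rw [hexp x hx, ← Real.exp_neg, ← Real.exp_nat_mul, ← Real.exp_add]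
    refine Real.exp_le_exp.2 ?_
    have := hC x hx m
    linarith

end

end Pool.Agent.V8H52.NH
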